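import Pool.Agent.helper71.HFE.RNK
import Pool.Agent.helper90.HFE.SYM
import Pool.Agent.helper83.HFE.DFQ
import Pool.Agent.helper17.HFE.LRG
import Pool.Agent.helper61.HFE.CIX
import Pool.Agent.helper76.HFE.CIY
import Pool.Agent.helper91.HFE.CIL
import Pool.Agent.helper95.HFE.DIV
import Pool.Agent.helper43.HFE.EXK
import Pool.Agent.helper1.HFE.STA
import Pool.Agent.helper5.HFE.NUM
import Pool.Agent.helper51.HFE.ONC
import Pool.Agent.helper36.HFE.DUA
import Pool.Agent.helper79.HFE.CDJ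
import Pool.Agent.helper59.HFE.LAF
import Pool.Agent.helper76.HFE.DEF
import Pool.Agent.helper14.HFE.LOB
import Pool.Agent.helper90.HFE.UPE
import Pool.Agent.helper10.HFE.GRO
import Pool.Agent.helper44.HFE.UPG
import Pool.Agent.helper23.HFE.AAB
import Pool.Agent.helper23.HFE.AFX
import Pool.Agent.helper68.HFE.MAB
import Pool.Agent.helper96.HFE.NUT
import Pool.Agent.helper69.HFE.ROU
import Pool.Agent.helper87.HFE.ROL
import Pool.Agent.helper73.HFE.SWZ
import Pool.Agent.helper79.HFE.ROC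
import Pool.Agent.helper59.HFE.F11
import Pool.Agent.helper33.HFE.C11
import Pool.Agent.helper38.HFE.IMX
import Pool.Agent.helper58.HFE.TRM
import Pool.Agent.helper20.HFE.VAL
import Pool.Agent.helper78.HFE.PRM
import Pool.Agent.helper76.HFE.GE1
import Pool.Agent.helper44.HFE.GE2
import Pool.Agent.helper1.HFE.GE3
import Pool.Agent.helper34.HFE.GEN
import Pool.Agent.helper39.HFE.RLZ
import Pool.Agent.helper25.HFE.MNC
import Pool.Agent.helper78.HFN.All
import Pool.Agent.helper46.JZ.EXM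

/-!
# Project HFE (MP_3221a1_ag): the assembly
-/

set_option autoImplicit false

namespace Pool.Agent.HFE

open Pool.Agent.HFN

theorem h_DFQ : DFQ_stmt := DFQ
theorem h_LRG : LRG_stmt := LRG
theorem h_SYM : SYM_stmt := SYM
theorem h_RNK : RNK_stmt := RNK a_INT
theorem h_CIX : CIX_stmt := CIX a_ELI
theorem h_CIY : CIY_stmt := CIY h_CIX
theorem h_CIL : CIL_stmt := CIL h_CIX h_CIY h_DFQ h_LRG
theorem h_DIV : DIV_stmt := DIV h_CIL
theorem h_EXK : EXK_stmt := EXK h_SYM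
theorem h_STA : STA_stmt := STA h_SYM h_DIV
theorem h_ONC : ONC_stmt := ONC h_RNK h_EXK h_STA h_DIV
theorem h_CDJ : CDJ_stmt := CDJ a_DIM h_DFQ h_LRG
theorem h_LAF : LAF_stmt := LAF h_CDJ a_RES
theorem h_DEF : DEF_stmt := DEF h_DFQ h_CDJ
theorem h_LOB : LOB_stmt := LOB h_DFQ h_CDJ h_LAF
theorem h_UPE : UPE_stmt := UPE DUA h_DFQ h_LAF h_DIV h_RNK
theorem h_GRO : GRO_stmt := GRO h_DFQ h_DIV h_RNK
theorem h_UPG : UPG_stmt := UPG DUA h_DFQ h_LAF h_DIV h_RNK h_GRO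
theorem h_AffAB : AffAB := AAB NUM h_ONC DUA h_LOB h_UPE h_UPG
theorem h_MainAB : MainAB := MAB h_AffAB AFX h_DEF
theorem h_GE3 : GE3_stmt := GE3 GE1 GE2
theorem h_GEN : ∀ n : ℕ, ∃ z : Fin n → ℂ, Gz n z := GEN h_GE3
theorem h_IMX : ∀ Z : Finset (ℂ × ℂ), ∃ v : ℕ, IsMx Z v := IMX F11
theorem h_Val : Val := VAL h_AffAB NUT ROU ROL (ROC ROU ROL SWZ) (C11 F11) TRM
theorem h_MainC : MainC := MNC a_AFF Pool.Agent.helper46.JZ.jz_EXM h_DEF NUT TRM h_Val h_IMX (PRM F11) (RLZ h_GEN F11 h_IMX)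

end Pool.Agent.HFE
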