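import Pool.Agent.helper41.HFE.SpecD

set_option autoImplicit false

open Polynomial Module Pool.Agent.HFN

namespace Pool.Agent.HFE

noncomputable section

theorem HIT_one (g : AA) (hg : Irreducible g) (h1 : 1 ≤ dY g) (x : ℂ) (S : Finset ℂ) (hS : ∀ y ∈ S, ev (x, y) g = 0) : S.card ≤ dY g := by
  classical
  have hev : ∀ y, ev (x, y) g = (g.map (evalRingHom x)).eval y := by
    intro y
    unfold ev
    rw [← Polynomial.map_evalRingHom_eval]
  have hP : g.map (evalRingHom x) ≠ 0 := by
    intro h0
    have h2 : C (X - C x) ∣ g := by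
      rw [C_dvd_iff_dvd_coeff]
      intro n
      rw [dvd_iff_isRoot]
      have h3 := congrArg (fun p => p.coeff n) h0
      simp only [coeff_map, coeff_zero, coe_evalRingHom] at h3
      exact h3
    obtain ⟨q, hq⟩ := h2
    rcases hg.isUnit_or_isUnit hq with hu | hu
    · rw [Polynomial.isUnit_C] at hu
      exact (Polynomial.irreducible_X_sub_C x).not_isUnit hu
    · have h3 : q.natDegree = 0 := Polynomial.natDegree_eq_zero_of_isUnit hu
      have h4 : g.natDegree ≤ 0 := by
        rw [hq]
        refine (Polynomial.natDegree_mul_le).trans ?_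
        rw [h3, Polynomial.natDegree_C]
      have h5 : 1 ≤ g.natDegree := h1
      omega
  have h6 : S ⊆ (g.map (evalRingHom x)).roots.toFinset := by
    intro y hy
    rw [Multiset.mem_toFinset, mem_roots hP, IsRoot.def, ← hev]
    exact hS y hy
  calc S.card ≤ (g.map (evalRingHom x)).roots.toFinset.card := Finset.card_le_card h6
    _ ≤ Multiset.card (g.map (evalRingHom x)).roots := Multiset.toFinset_card_le _
    _ ≤ (g.map (evalRingHom x)).natDegree := card_roots' _
    _ ≤ g.natDegree := natDegree_map_le

theorem HIT : HIT_stmt := by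
  intro g hg hx hy
  refine ⟨fun x S hS => HIT_one g hg hy x S hS, fun y S hS => ?_⟩
  have h1 : Irreducible (sw g) := (MulEquiv.irreducible_iff sw).2 hg
  have h2 := HIT_one (sw g) h1 hx y S ?_
  · exact h2
  · intro x hx'
    rw [ev_sw]
    exact hS x hx'

end

end Pool.Agent.HFE
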