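import Pool.Agent.helper41.HFE.SpecD
import Pool.Agent.helper69.HFE.ROU

set_option autoImplicit false

open Polynomial Module Pool.Agent.HFN

namespace Pool.Agent.HFE

noncomputable section

theorem ROM : ROM_stmt := by
  classical
  intro f hf hx
  obtain ⟨P, rfl⟩ := ROU_form hx
  have hP : P ≠ 0 := by
    rintro rfl
    apply hf
    rw [C_0, map_zero]
  refine ⟨fun y => min 2 (P.rootMultiplicity y), fun y => min_le_left _ _, fun z => ?_, fun S => ?_⟩
  · have h1 : ev z (sw (C P)) = 0 ↔ 0 < P.rootMultiplicity z.2 := by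
      rw [ROU_ev, rootMultiplicity_pos hP]
      exact Iff.rfl
    have h2 : Db z (sw (C P)) ↔ 1 < P.rootMultiplicity z.2 := by
      rw [one_lt_rootMultiplicity_iff_isRoot hP]
      unfold Db
      rw [ROU_ev, ROU_evx, ROU_evy]
      constructor
      · rintro ⟨h1, -, h3⟩
        exact ⟨h1, h3⟩
      · rintro ⟨h1, h3⟩
        exact ⟨h1, rfl, h3⟩
    unfold od
    by_cases h3 : Db z (sw (C P))
    · have h4 := h2.1 h3
      simp only [h3, if_true]
      omega
    · have h4 : ¬ (1 < P.rootMultiplicity z.2) := fun h => h3 (h2.2 h)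
      by_cases h5 : ev z (sw (C P)) = 0
      · have h6 := h1.1 h5
        simp only [h3, h5, if_true, if_false]
        omega
      · have h6 : ¬ (0 < P.rootMultiplicity z.2) := fun h => h5 (h1.2 h)
        simp only [h3, h5, if_false]
        omega
  · rw [ROU_dY]
    exact (Finset.sum_le_sum fun y _ => min_le_right _ _).trans (ROU_mult P S)

end

end Pool.Agent.HFE
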