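import Pool.Agent.helper41.HFE.All
import Pool.Agent.helper8.JZ.TRA
import Pool.Agent.helper33.HFE.LAP
import Pool.Agent.helper85.HFE.SMO
import Pool.Agent.helper41.HFE.HIT
import Pool.Agent.helper90.HFE.FCX
import Pool.Agent.helper41.HFE.ROM
import Pool.Agent.helper23.HFE.ADF
import Pool.Agent.helper69.HFE.LOD
import Pool.Agent.helper25.HFE.SWB
import Pool.Agent.helper81.HFE.G00
import Pool.Agent.helper59.HFE.GN1
import Pool.Agent.helper72.HFE.GN2
import Pool.Agent.helper63.HFE.GN3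
import Pool.Agent.helper78.HFE.GN4
import Pool.Agent.helper57.HFE.RZT
import Pool.Agent.helper75.HFE.RLK
import Pool.Agent.helper71.HFE.UXX
import Pool.Agent.helper40.HFE.UXY
import Pool.Agent.helper29.HFE.UNK
import Pool.Agent.helper30.HFE.UXK
import Pool.Agent.helper18.HFE.UYK
import Pool.Agent.helper13.HFE.COK
import Pool.Agent.helper14.HFE.NEK
import Pool.Agent.helper78.HFE.NUK
import Pool.Agent.helper95.HFE.SUK
import Pool.Agent.helper96.HFE.MNK

/-!
# Project HFE (MP_3221a1_ag): the assembly of block K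
-/

set_option autoImplicit false

namespace Pool.Agent.HFE

open Pool.Agent.HFN

theorem k_SWB : SWB_stmt := SWB h_DEF
theorem k_LOD : LOD_stmt := LOD h_LOB LAP SMO a_ODM
theorem k_RLK : RLK_stmt := RLK LAP SMO HIT ROM a_ODM
theorem k_UpXK : UpXK := UXK LAP SMO a_ODM FCX ROM k_RLK ADF TRM ROU
theorem k_UpYK : UpYK := UYK k_SWB SWZ Pool.Agent.helper8.JZ.jz_TRA k_UpXK
theorem k_CoreK : CoreK := COK h_AffAB TRM k_UpXK k_UpYK
theorem k_NecK : NecK := NEK Pool.Agent.helper46.JZ.jz_EXM (UNK (UXX a_BZT HIT) (UXY a_BZT HIT)) HIT k_LOD k_CoreK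
theorem k_GN3 : GN3_stmt := GN3 (GN1 HIT) (GN2 a_BZT)
theorem k_SufK : SufK := SUK (RZT (GN4 k_GN3 HIT)) G00 NUK TRM k_LOD k_CoreK
theorem k_MainK : MainK := MNK a_AFF h_DEF k_SWB Pool.Agent.helper8.JZ.jz_TRA k_NecK k_SufK

end Pool.Agent.HFE
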