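import Pool.Agent.helper78.HFN.Spec
import Pool.Agent.helper29.JZ.Spec

/-!
# Project HFE (MP_3221a1_ag): exact Hilbert functions of double points. Definitions and basic facts

`AA = ℂ[x][y]`, `V i j`, `JJ Z κ`, `hd`, `dX`, `dY`, `ev`, `Db`, `nn`, `sg`, `two`, `HH` as in `Pool/Agent/helper78/HFN/Defs.lean`;
`col`, `row`, `ZZ` as in `Pool/Agent/helper29/JZ/Defs.lean`.
-/

set_option autoImplicit false

open Polynomial Module Pool.Agent.HFN

namespace Pool.Agent.HFE

noncomputable section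

/-- the annihilator of a functional: the `f` with `φ (g f) = 0` for all `g`; an ideal -/
def An (φ : AA →ₗ[ℂ] ℂ) : Ideal AA where
  carrier := {f | ∀ g : AA, φ (g * f) = 0}
  zero_mem' := by
    intro g
    rw [mul_zero, map_zero]
  add_mem' := by
    intro f f' hf hf' g
    rw [mul_add, map_add, hf g, hf' g, add_zero]
  smul_mem' := by
    intro c f hf g
    rw [smul_eq_mul, ← mul_assoc]
    exact hf (g * c)

theorem mem_An {φ : AA →ₗ[ℂ] ℂ} {f : AA} : f ∈ An φ ↔ ∀ g : AA, φ (g * f) = 0 := Iff.rfl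

theorem val_of_mem_An {φ : AA →ₗ[ℂ] ℂ} {f : AA} (h : f ∈ An φ) : φ f = 0 := by
  have := h 1
  rwa [one_mul] at this

theorem one_mem_An {φ : AA →ₗ[ℂ] ℂ} : (1 : AA) ∈ An φ ↔ φ = 0 := by
  constructor
  · intro h
    ext g
    have := h g
    rw [mul_one] at this
    exact this
  · intro h g
    rw [h]
    rfl

/-- an ideal on which `φ` vanishes is in `An φ` -/
theorem le_An {φ : AA →ₗ[ℂ] ℂ} {J : Ideal AA} (h : ∀ f ∈ J, φ f = 0) : J ≤ An φ :=
  fun f hf g => h _ (J.mul_mem_left g hf)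

/-- `u φ`, the functional `g ↦ φ (u g)` -/
def tw (u : AA) (φ : AA →ₗ[ℂ] ℂ) : AA →ₗ[ℂ] ℂ := φ.comp (LinearMap.mulLeft ℂ u)

theorem tw_apply (u : AA) (φ : AA →ₗ[ℂ] ℂ) (g : AA) : tw u φ g = φ (u * g) := rfl

theorem mem_An_tw {u f : AA} {φ : AA →ₗ[ℂ] ℂ} : f ∈ An (tw u φ) ↔ u * f ∈ An φ := by
  constructor
  · intro h g
    have := h g
    rw [tw_apply] at this
    rw [← this]
    ring_nf
  · intro h g
    rw [tw_apply]
    have := h g
    rw [← this]
    ring_nf

theorem tw_eq_zero {u : AA} {φ : AA →ₗ[ℂ] ℂ} : tw u φ = 0 ↔ u ∈ An φ := by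
  rw [← one_mem_An, mem_An_tw, mul_one]

/-- a functional which vanishes on `V i j` is `0` if `V i j` and `An φ` span everything -/
theorem eq_zero_of_top {φ : AA →ₗ[ℂ] ℂ} {W : Submodule ℂ AA} (h : ∀ f ∈ W, φ f = 0)
    (ht : W ⊔ (An φ).restrictScalars ℂ = ⊤) : φ = 0 := by
  ext f
  have hf : f ∈ W ⊔ (An φ).restrictScalars ℂ := by
    rw [ht]
    exact Submodule.mem_top
  obtain ⟨g, hg, k, hk, rfl⟩ := Submodule.mem_sup.1 hf
  rw [map_add, h g hg, val_of_mem_An hk, add_zero]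
  rfl

/-- the ideal has finite codimension -/
def Fc (J : Ideal AA) : Prop := FiniteDimensional ℂ (AA ⧸ (J.restrictScalars ℂ : Submodule ℂ AA))

/-- the codimension of an ideal -/
def cod (J : Ideal AA) : ℕ := finrank ℂ (AA ⧸ (J.restrictScalars ℂ : Submodule ℂ AA))

theorem Fc_mono {J K : Ideal AA} (h : J ≤ K) (hJ : Fc J) : Fc K := by
  unfold Fc at hJ ⊢
  have h' : (J.restrictScalars ℂ : Submodule ℂ AA) ≤ K.restrictScalars ℂ := fun f hf => h hf
  exact Module.Finite.of_surjective (Submodule.factor h') (Submodule.factor_surjective h')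

/-- the functionals on `A / (I + V i j)`, `I = JJ Z two` -/
def Fu (Z : Finset (ℂ × ℂ)) (i j : ℕ) (φ : AA →ₗ[ℂ] ℂ) : Prop :=
  (∀ f ∈ JJ Z two, φ f = 0) ∧ ∀ f ∈ V i j, φ f = 0

/-- the defect `3 r - H(i,j)`, as a dimension -/
def df (Z : Finset (ℂ × ℂ)) (i j : ℕ) : ℕ :=
  finrank ℂ (AA ⧸ (V i j ⊔ (JJ Z two).restrictScalars ℂ : Submodule ℂ AA))

/-- the number of conditions which a curve of bidegree `(a, b)` imposes on the polynomials of bidegree `(i, j)` -/
def chi (i j a b : ℕ) : ℕ := (i + 1) * (j + 1) - (i + 1 - a) * (j + 1 - b)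

/-- the length of the intersection of the double points at `Z` with the curve `f = 0` -/
def La (Z : Finset (ℂ × ℂ)) (f : AA) : ℕ := 2 * nn Z f + sg Z f

/-- `f` is an element of smallest `dX + dY` among the nonzero elements of `An φ` in `V p q` -/
structure Mn (φ : AA →ₗ[ℂ] ℂ) (p q : ℕ) (f : AA) : Prop where
  ne : f ≠ 0
  mem : f ∈ An φ
  deg : f ∈ V p q
  min : ∀ g : AA, g ≠ 0 → g ∈ An φ → g ∈ V p q → dX f + dY f ≤ dX g + dY g

/-- the possible bidegrees of the curve -/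
def CD (i j r a b : ℕ) : Prop := 2 * a ≤ i + 1 ∧ 2 * b ≤ j + 1 ∧ b * (i + 2 - a) + a * (j + 2 - b) ≤ 2 * r

/-- three bidegrees -/
def Tr (i j r : ℕ) : Prop := ∀ a b a' b' a'' b'' : ℕ, CD i j r a b → CD i j r a' b' → CD i j r a'' b'' →
  a + a' + a'' < i + 2 ∨ b + b' + b'' < j + 2

/-! ## The region `T` -/

/-- the region of the classification -/
def TT (r i j : ℕ) : Prop := 2 ≤ i ∧ 2 ≤ j ∧ 2 * r ≤ 2 * i + j + 1 ∧ 2 * r ≤ i + 2 * j + 1

open Classical in
/-- number of points of `Z` in the row `y` -/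
def mr (Z : Finset (ℂ × ℂ)) (y : ℂ) : ℕ := (Z.filter fun z => z.2 = y).card

open Classical in
/-- number of points of `Z` in the column `x` -/
def nc (Z : Finset (ℂ × ℂ)) (x : ℂ) : ℕ := (Z.filter fun z => z.1 = x).card

open Classical in
/-- the contribution of the rows -/
def Aa (Z : Finset (ℂ × ℂ)) (i : ℕ) : ℕ := ∑ y ∈ Z.image Prod.snd, max (2 * mr Z y - (i + 1)) (3 * mr Z y - 2 * (i + 1))

open Classical in
/-- the contribution of the columns -/
def Bb (Z : Finset (ℂ × ℂ)) (j : ℕ) : ℕ := ∑ x ∈ Z.image Prod.fst, max (2 * nc Z x - (j + 1)) (3 * nc Z x - 2 * (j + 1))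

open Classical in
/-- the length of the intersection with the column `α` and the row `β` -/
def cr (Z : Finset (ℂ × ℂ)) (α β : ℂ) : ℕ := 2 * nc Z α + 2 * mr Z β - if (α, β) ∈ Z then 1 else 0

/-- irreducible curve of bidegree `(1, 1)` -/
def I11 (f : AA) : Prop := Irreducible f ∧ dX f = 1 ∧ dY f = 1

/-- `v` is the largest number of points of `Z` on an irreducible curve of bidegree `(1, 1)` -/
def IsMx (Z : Finset (ℂ × ℂ)) (v : ℕ) : Prop := (∀ f : AA, I11 f → nn Z f ≤ v) ∧ ∃ f : AA, I11 f ∧ nn Z f = v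

section Mat

open Pool.Agent.helper29.JZ

variable {h h' : ℕ} (M : Finset (Fin h × Fin h'))

/-- rows -/
def AM (i : ℕ) : ℕ := ∑ m : Fin h', max (2 * row M m - (i + 1)) (3 * row M m - 2 * (i + 1))

/-- columns -/
def BM (j : ℕ) : ℕ := ∑ k : Fin h, max (2 * col M k - (j + 1)) (3 * col M k - 2 * (j + 1))

/-- a column and a row -/
def XM : ℕ := Finset.univ.sup fun p : Fin h × Fin h' => 2 * col M p.1 + 2 * row M p.2 - if p ∈ M then 1 else 0

/-- the defect on `T` -/
def Mx (v i j : ℕ) : ℕ := max (max (AM M i) (BM M j)) (max (XM M - (i + j + 1)) (2 * v - (i + j + 1)))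

/-- a permutation matrix on some rows and columns (at most one element in every row and column) -/
def PP (W : Finset (Fin h × Fin h')) : Prop := (∀ z ∈ W, ∀ z' ∈ W, z.1 = z'.1 → z = z') ∧ ∀ z ∈ W, ∀ z' ∈ W, z.2 = z'.2 → z = z'

/-- the data of the classification on `T` -/
def Dat (r v : ℕ) : Prop := M.card = r ∧ (∀ k, 1 ≤ col M k) ∧ (∀ m, 1 ≤ row M m) ∧ ∃ W ⊆ M, PP W ∧ W.card = v

end Mat

section Pnt

open Pool.Agent.helper97.FP

open Classical in
/-- the length of the intersection of the double points at `Y` with the curve `F = 0` of `ℙ¹ × ℙ¹` -/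
def ln (Y : Finset Point) (F : MvPolynomial (Fin 4) ℂ) : ℕ :=
  2 * (Y.filter fun P => F ∈ idealPoint P).card + (Y.filter fun P => F ∈ idealPoint P ^ 2).card

end Pnt

end

end Pool.Agent.HFE
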