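import Pool.Agent.helper41.HFE.Defs

/-!
# Project HFE (MP_3221a1_ag), rows `hfe:*`: the exact Hilbert function of double points on half of the inner square

GOAL. `Y` a set of `r` points of `ℙ¹ × ℙ¹`, `H(i,j)` the Hilbert function of `R / I_Y^(2)`. (`MainAB`) For a form `F ≠ 0` of bidegree `(a,b)` let `ln Y F` be the length of
`2Y ∩ {F = 0}` and `chi i j a b` the number of conditions of a curve of bidegree `(a,b)`; trivially `3r - H(i,j) ≥ ln Y F - chi i j a b`. If `(i+2)(j+2) > 6r` there is ONE curve with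
`3r - H(i,j) ≤ ln Y F - chi i j a b + (a-1)⁺(b-1)⁺`; if `i, j ≥ 2`, `i + j ≥ r + 1` there is one with `a ≤ 1` or `b ≤ 1`: the value is exact. (`MainC`) On `TT` the functions of `H(r)` are exactly the `3r - Mx M v`.

RULES. Row `XXX`: file `Pool/Agent/<seat>/HFE/XXX.lean`, `import Pool.Agent.helper41.HFE.Spec`, `set_option autoImplicit false`, `open Polynomial Module Pool.Agent.HFN`,
`namespace Pool.Agent.HFE`, theorem line exactly as in the lock note, other rows only as hypotheses, auxiliary lemmas prefixed `XXX_`. No straight double quotes, no `convert`, `congr!`,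
`native_decide`. Basic facts: `Pool/Agent/helper41/HFE/Defs.lean` (`mem_An`, `le_An`, `tw`, `mem_An_tw`, `tw_eq_zero`, `eq_zero_of_top`, `Fc_mono`) and `Pool/Agent/helper78/HFN/Defs.lean` (`mem_V`, `V_mono`,
`mul_mem_V`, `mem_V_of_mul`, `dX_mul`, `dY_mul`, `finrank_V`, `sw`, ...). The rows of HFN are proved (`Pool/Agent/helper78/HFN/All.lean`); those used are hypotheses (`INT_stmt`, ...).
Land, note DONE path, one line to helper41. A doubtful statement: tell me at once.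

NOTATION. `φ : AA →ₗ[ℂ] ℂ` a functional; `An φ` = ideal of the `f` with `φ (g f) = 0` for all `g`; `tw u φ = u φ`; `Fc J`, `cod J`: finite codimension, codimension of the ideal `J`;
`Fu Z i j φ`: `φ` vanishes on `JJ Z two` and on `V i j`; `df Z i j = dim A / (V i j + JJ Z two)`; `hd J i j = dim (V i j ∩ J)`; `La Z f = 2 #{f = 0} + #{f double}`;
`Mn φ p q f`: `f` is a nonzero element of `An φ ∩ V p q` with `dX f + dY f` minimal. In docstrings `a = dX f`, `b = dY f`.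
-/

set_option autoImplicit false

open Polynomial Module Pool.Agent.HFN

namespace Pool.Agent.HFE

noncomputable section

/-! ## A. Linear algebra -/

/-- **RNK** (medium). uses: INT. Rank at most `2 r`. INT gives polynomials `e0 z, e1 z, e2 z` (`z ∈ Z`) with value, `x`-derivative, `y`-derivative `(1,0,0)`, `(0,1,0)`, `(0,0,1)` at `z` and `0` at the other points; `f - ∑_z (f(z) e0 z + f_x(z) e1 z + f_y(z) e2 z)` is in `JJ Z two`, so
`φ f = ∑_z (α_z f(z) + β_z f_x(z) + γ_z f_y(z))`, `α_z = φ (e0 z)` etc. If `f(z) = 0` and `β_z f_x(z) + γ_z f_y(z) = 0` for all `z ∈ Z` then by Leibniz (`Dx_mul`, `Dy_mul`) `φ (g f) = ∑_z g(z) (β_z f_x(z) + γ_z f_y(z)) = 0`: the kernel of the linear map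
`Ψ : AA → (Z → ℂ) × (Z → ℂ)`, `f ↦ (f(z), β_z f_x(z) + γ_z f_y(z))_z` is contained in `An φ`; `A / ker Ψ` embeds in a space of dimension `2 #Z`, and `A / An φ` is a quotient of it. (`DIM_ev`, `DIM_dx`, `DIM_dy` in `helper35/HFN/DIM.lean` are the linear maps.) -/
def RNK_stmt : Prop := ∀ (Z : Finset (ℂ × ℂ)) (φ : AA →ₗ[ℂ] ℂ), (∀ f ∈ JJ Z two, φ f = 0) → Fc (An φ) ∧ cod (An φ) ≤ 2 * Z.card

/-- **SYM** (medium; pure linear algebra). `W = (An φ).restrictScalars ℂ`, `Q = AA ⧸ W` (finite-dimensional). `(g, h) ↦ φ (g h)` vanishes if `g ∈ An φ` or `h ∈ An φ` (commutativity), so it gives a linear map `T : Q → Dual ℂ Q` (`Submodule.liftQ` twice), injective: `φ (g h) = 0` for all `h` means `g ∈ An φ`.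
`U`, `U'` the images of `V s t`, `V (i-s) (j-t)` in `Q`: `dim U = (s+1)(t+1) - hd (An φ) s t` (kernel of `V s t → Q` is `V s t ⊓ W`; `finrank_V`), the same for `U'`. `T` maps `U'` into the annihilator of `U` (`g h ∈ V i j`, `mul_mem_V`), which has dimension `dim Q - dim U`
(`Subspace.finrank_add_finrank_dualAnnihilator_eq`). So `dim U' + dim U ≤ dim Q = cod (An φ)`. -/
def SYM_stmt : Prop := ∀ (φ : AA →ₗ[ℂ] ℂ) (i j : ℕ), Fc (An φ) → (∀ f ∈ V i j, φ f = 0) → ∀ s t : ℕ, s ≤ i → t ≤ j →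
  (s + 1) * (t + 1) + (i - s + 1) * (j - t + 1) ≤ hd (An φ) s t + hd (An φ) (i - s) (j - t) + cod (An φ)

/-- **DFQ** (short-medium; pure linear algebra). `W = J.restrictScalars ℂ`, `π = W.mkQ`, `U = (V m n).map π`: `finrank U + finrank (V m n ⊓ W) = finrank (V m n) = (m+1)(n+1)` (rank-nullity for `π.domRestrict (V m n)`), `(AA ⧸ W) ⧸ U ≃ AA ⧸ (V m n ⊔ W)` (`Submodule.quotientQuotientEquivQuotientSup`
or via the surjection `AA ⧸ W → AA ⧸ (V m n ⊔ W)` with kernel `U`), `finrank_quotient_add_finrank`. -/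
def DFQ_stmt : Prop := ∀ J : Ideal AA, Fc J → ∀ m n : ℕ,
  finrank ℂ (AA ⧸ (V m n ⊔ J.restrictScalars ℂ : Submodule ℂ AA)) + (m + 1) * (n + 1) = hd J m n + cod J

/-- **LRG** (short-medium; pure linear algebra). `AA ⧸ W` is spanned by finitely many classes of `f_1, ..., f_k ∈ AA` (`Submodule.fg_def` / `Module.Finite`); `N` = maximum of all `dX f_l`, `dY f_l`; `f_l ∈ V N N ≤ V m n`, so `V m n ⊔ W = ⊤`. -/
def LRG_stmt : Prop := ∀ J : Ideal AA, Fc J → ∃ N : ℕ, ∀ m n : ℕ, N ≤ m → N ≤ n → (V m n ⊔ J.restrictScalars ℂ : Submodule ℂ AA) = ⊤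

/-! ## B. Complete intersections -/

/-- **CIX** (medium; adaptation of `helper84/HFN/ONE.lean`, which has `G1, G2 ∈ V p q`, `p ≤ m+1`, `2q ≤ n+1`). The same proof: `F = G1` (not `0`), `G = G2`, `c` with `d(c) ≠ 0` and `F.leadingCoeff(c) ≠ 0`, so `deg F_c = dY F` exactly; for `f ∈ V (m+1) n`: `f_c = σ F_c + τ G_c`, `deg τ < dY F` or `τ = 0`,
so `deg (τ G_c) ≤ dY F - 1 + t ≤ n`, hence `deg σ + dY F ≤ n` or `σ = 0`. `σ(y) F, τ(y) G ∈ V (m+1) n` as `dX F, s ≤ m + 1`. The rest is unchanged. -/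
def CIX_stmt : Prop := ∀ (J : Ideal AA) (F G : AA) (s t m n : ℕ), F ∈ J → G ∈ J → IsRelPrime F G → F ≠ 0 → G ∈ V s t → dX F ≤ m + 1 → s ≤ m + 1 →
  dY F + t ≤ n + 1 → hd J m n + (n + 1) ≤ hd J (m + 1) n

/-- **CIY** (short; adaptation of `helper93/HFN/TWO.lean`). uses: CIX. Exchange `x` and `y`: `J.comap sw`, `TWO_hd`, `TWO_rp`. -/
def CIY_stmt : Prop := ∀ (J : Ideal AA) (F G : AA) (s t m n : ℕ), F ∈ J → G ∈ J → IsRelPrime F G → F ≠ 0 → G ∈ V s t → dY F ≤ n + 1 → t ≤ n + 1 →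
  dX F + s ≤ m + 1 → hd J m n + (m + 1) ≤ hd J m (n + 1)

/-- **CIL** (medium). uses: CIX, CIY, DFQ, LRG. `J = An φ`, `e(m,n) = finrank (AA ⧸ (V m n ⊔ J))`; DFQ: `e(m,n) + (m+1)(n+1) = hd J m n + cod J`. CIX at `(m,n)` says `e(m,n) ≤ e(m+1,n)`, CIY says `e(m,n) ≤ e(m,n+1)`. Case `dX F + s ≤ i + 1`: CIY at `(i, n)` for all `n ≥ j`: `e(i,j) ≤ e(i,n)`;
CIX at `(m, n)` for `m ≥ i` and `n + 1 ≥ dY F + t`: `e(i,n) ≤ e(m,n)`, which is `0` for large `m, n` (LRG). Case `dY F + t ≤ j + 1`: first CIX at `(m, j)`, `m ≥ i`, then CIY at `(m,n)` for `m + 1 ≥ dX F + s`, `n ≥ j`. So `e(i,j) = 0`, `V i j ⊔ An φ = ⊤` (a quotient of dimension `0`; it is finite-dimensional by `Fc`),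
`eq_zero_of_top`. -/
def CIL_stmt : Prop := ∀ (φ : AA →ₗ[ℂ] ℂ) (F G : AA) (s t i j : ℕ), Fc (An φ) → (∀ f ∈ V i j, φ f = 0) → F ∈ An φ → G ∈ An φ → IsRelPrime F G → F ≠ 0 →
  G ∈ V s t → dX F ≤ i + 1 → dY F ≤ j + 1 → s ≤ i + 1 → t ≤ j + 1 → (dX F + s ≤ i + 1 ∨ dY F + t ≤ j + 1) → φ = 0

/-- **DIV** (medium). uses: CIL. `g ≠ 0` (otherwise `f ∣ g`). `UniqueFactorizationMonoid.exists_reduced_factors`: `f = u F`, `g = u G`, `IsRelPrime F G`, all nonzero; `c = dX u`, `d = dY u`, so `a = c + dX F`, `b = d + dY F` (`dX_mul`, `dY_mul`), `c ≤ s`, `d ≤ t`, `G ∈ V (s - c) (t - d)` (`mem_V_of_mul`).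
`μ = tw u φ`: `F, G ∈ An μ` (`mem_An_tw`), `An φ ≤ An μ` so `Fc (An μ)` (`Fc_mono`), `μ = 0` on `V (i-c) (j-d)` (`u h ∈ V i j`, as `c ≤ a ≤ p ≤ i`). `μ ≠ 0`: otherwise `u ∈ An φ` (`tw_eq_zero`), `u ∈ V p q`, so by minimality `a + b ≤ c + d`, `dX F = dY F = 0`, `F` is a nonzero constant, a unit, and `f ∣ g`.
If the claim is false then `a + s ≤ i + 1` or `b + t ≤ j + 1`; CIL for `μ, F, G`, `(s-c, t-d)`, `(i-c, j-d)`: `(a - c) + (s - c) ≤ (i - c) + 1` etc. gives `μ = 0`. -/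
def DIV_stmt : Prop := ∀ (φ : AA →ₗ[ℂ] ℂ) (i j p q : ℕ) (f : AA), Fc (An φ) → φ ≠ 0 → (∀ g ∈ V i j, φ g = 0) → Mn φ p q f → p ≤ i → q ≤ j →
  ∀ (g : AA) (s t : ℕ), g ∈ An φ → g ∈ V s t → s ≤ i + 1 → t ≤ j + 1 → ¬ f ∣ g → i + 2 ≤ dX f + s ∧ j + 2 ≤ dY f + t

/-! ## C. The curve of one functional -/

/-- **EXK** (short-medium). uses: SYM. `p = (i+1)/2`, `q = (j+1)/2`. If `An φ ∩ V p q` has no nonzero element then `hd (An φ) p q = 0` and `hd (An φ) (i-p) (j-q) = 0` (`i - p ≤ p`, `j - q ≤ q`), so SYM gives `(p+1)(q+1) + (i-p+1)(j-q+1) ≤ 2r`; with `u = 2p - i`, `w = 2q - j ∈ {0,1}`: `4 * LHS = (i+2+u)(j+2+w) + (i+2-u)(j+2-w) ≥ 2 (i+2)(j+2)`,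
a contradiction (four parity cases). Otherwise take a nonzero element with `dX + dY` minimal (`Nat.find` or well-foundedness). -/
def EXK_stmt : Prop := ∀ (φ : AA →ₗ[ℂ] ℂ) (i j r : ℕ), Fc (An φ) → cod (An φ) ≤ 2 * r → (∀ g ∈ V i j, φ g = 0) → 4 * r < (i + 2) * (j + 2) →
  ∃ f : AA, Mn φ ((i + 1) / 2) ((j + 1) / 2) f

/-- **STA** (medium). uses: SYM, DIV. `p = (i+1)/2 ≤ i`, `q = (j+1)/2 ≤ j`, `2a ≤ i+1`, `2b ≤ j+1`. (1) `hd (An φ) a b ≤ 1`: for `g ∈ An φ ∩ V a b` DIV (`s = a`, `t = b`) gives `f ∣ g` (`i + 2 ≤ 2a` is false), `g = f h`, `h ∈ V 0 0`. (2) `hd (An φ) (i-a) (j-b) ≤ (i+1-2a)(j+1-2b)` (truncated): `f ∣ g` (`i + 2 ≤ a + (i-a)` is false),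
`g = f h`; if `g ≠ 0` then `a ≤ i-a`, `b ≤ j-b`, `h ∈ V (i-2a) (j-2b)`; so the space is the image of `V (i-2a) (j-2b)` under multiplication by `f`, or `0` if `2a = i+1` or `2b = j+1`. SYM for `(s,t) = (a,b)`: `(a+1)(b+1) + (i-a+1)(j-b+1) ≤ 1 + (i+1-2a)(j+1-2b) + 2r`, which is `b (i+2-a) + a (j+2-b) ≤ 2r`. -/
def STA_stmt : Prop := ∀ (φ : AA →ₗ[ℂ] ℂ) (i j r : ℕ) (f : AA), Fc (An φ) → cod (An φ) ≤ 2 * r → φ ≠ 0 → (∀ g ∈ V i j, φ g = 0) →
  Mn φ ((i + 1) / 2) ((j + 1) / 2) f → CD i j r (dX f) (dY f)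

/-- **NUM** (short-medium; pure arithmetic). (1) `CD i j r a b` and `6r < (i+2)(j+2)`: `b (i+2-a) + a (j+2-b) = b (i+2-2a) + a (j+2) ≥ a (j+2)`, so `3a ≥ i+2` would give `3 * 2r ≥ (i+2)(j+2)`. So `3a < i+2` for the three of them. (2) `i, j ≥ 2`, `r + 1 ≤ i + j`: `(i-2)(j-2) ≥ 0` gives `(i+2)(j+2) ≥ 4(i+j) > 4r`. If `a, b ≥ 2`:
`b (i+2-a) + a (j+2-b) = [2i + 2j] + (b-2)(i+2-4) + (a-2)(j+2-2b) ≥ 2i + 2j ≥ 2r + 2`. (3) Three of them: all `a ≤ 1`: sum `≤ 3 < i+2`; exactly one `a ≥ 2`: sum `≤ 2 + (i+1)/2 < i+2`; two `a ≥ 2`: these two `b` are `≤ 1`, the third is `≤ (j+1)/2`, sum `≤ 2 + (j+1)/2 < j + 2`. -/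
def NUM_stmt : Prop := (∀ i j r : ℕ, 6 * r < (i + 2) * (j + 2) → Tr i j r) ∧
  ∀ i j r : ℕ, 2 ≤ i → 2 ≤ j → r + 1 ≤ i + j → 4 * r < (i + 2) * (j + 2) ∧ (∀ a b : ℕ, CD i j r a b → a ≤ 1 ∨ b ≤ 1) ∧ Tr i j r

/-- **ONC** (medium, the key step). uses: RNK, EXK, STA, DIV. `r = #Z`, `p = (i+1)/2`, `q = (j+1)/2`. RNK: `Fc`, `cod ≤ 2r` for all functionals in question; every `φ ≠ 0` with `Fu Z i j φ` has some `f` with `Mn φ p q f` (EXK), and then `CD` (STA). Choose `(φ₀, f₀)`, `φ₀ ≠ 0`, `Fu Z i j φ₀`, `Mn φ₀ p q f₀`, with `dX f₀ + dY f₀` MAXIMAL (bounded by `p + q`). Let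
`ψ ≠ 0`, `Fu Z i j ψ`, `Mn ψ p q g`. `G = f₀ * g ≠ 0` is in `An (φ₀ + t • ψ)` for all `t : ℂ`. For all `t` but one `φ₀ + t ψ ≠ 0`; take `Mn (φ₀ + t ψ) p q h_t`. DIV for `h_t`, `G ∈ V (dX f₀ + dX g) (dY f₀ + dY g)` (`dX f₀ + dX g ≤ i + 1` by CD) and `Tr`: `h_t ∣ G`. `G` has finitely many divisors up to units (`Associates`: `UniqueFactorizationMonoid.fintypeSubtypeDvd`
for `Associates AA`), so `h_t`, `h_(t')` are associated for some `t ≠ t'` (`Set.Infinite.exists_ne_map_eq_of_mapsTo`); `h = h_t` is in `An (φ₀ + t ψ)` and `An (φ₀ + t' ψ)`, so in `An ψ` and in `An φ₀`. DIV for `φ₀, f₀, h`: `f₀ ∣ h` (`i + 2 ≤ dX f₀ + dX h` is false by CD). By maximality `dX h + dY h ≤ dX f₀ + dY f₀`,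
so `h = f₀ k` with `k` a nonzero constant, and `f₀ = k⁻¹ h ∈ An ψ`. (`ψ = 0`: trivial.) -/
def ONC_stmt : Prop := ∀ (Z : Finset (ℂ × ℂ)) (i j : ℕ), 4 * Z.card < (i + 2) * (j + 2) → Tr i j Z.card → (∃ φ : AA →ₗ[ℂ] ℂ, φ ≠ 0 ∧ Fu Z i j φ) →
  ∃ (φ : AA →ₗ[ℂ] ℂ) (f : AA), φ ≠ 0 ∧ Fu Z i j φ ∧ Mn φ ((i + 1) / 2) ((j + 1) / 2) f ∧ CD i j Z.card (dX f) (dY f) ∧ ∀ ψ : AA →ₗ[ℂ] ℂ, Fu Z i j ψ → f ∈ An ψ

/-! ## D. The count -/

/-- **DUA** (short-medium; pure linear algebra). `W = V i j ⊔ (JJ Z two)`. A functional vanishes on `W` iff `Fu Z i j`. If `x ∉ W` there is a functional vanishing on `W` with `φ x ≠ 0` (`Submodule.exists_dual_map_eq_bot_of_notMem` / `Submodule.exists_le_ker_of_notMem`). (1) `x = g f`: all `φ (g f) = 0` (`f ∈ An φ`), so `g f ∈ W`; `Ideal.mem_span_singleton'`. (2) clear. -/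
def DUA_stmt : Prop := (∀ (Z : Finset (ℂ × ℂ)) (i j : ℕ) (f : AA), (∀ ψ : AA →ₗ[ℂ] ℂ, Fu Z i j ψ → f ∈ An ψ) →
    (V i j ⊔ (JJ Z two ⊔ Ideal.span {f}).restrictScalars ℂ : Submodule ℂ AA) = V i j ⊔ (JJ Z two).restrictScalars ℂ) ∧
  ∀ (Z : Finset (ℂ × ℂ)) (i j : ℕ), (∀ φ : AA →ₗ[ℂ] ℂ, Fu Z i j φ → φ = 0) → (V i j ⊔ (JJ Z two).restrictScalars ℂ : Submodule ℂ AA) = ⊤

/-- **CDJ** (short-medium). uses: DIM, DFQ, LRG. `Fc`: `JJ Z two ≤ JJ Z κ`, and `JJ Z two` is the kernel of the linear map `f ↦ (f(z), f_x(z), f_y(z))_z` into a finite-dimensional space (`Fc_mono`). For large `m, n`: `V m n ⊔ JJ Z κ = ⊤` (LRG), the quotient has dimension `0`, DFQ: `(m+1)(n+1) = hd + cod`, DIM: `hd + Wt Z κ = (m+1)(n+1)`. -/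
def CDJ_stmt : Prop := ∀ (Z : Finset (ℂ × ℂ)) (κ : ℂ × ℂ → ℕ), (∀ z, κ z ≤ 2) → Fc (JJ Z κ) ∧ cod (JJ Z κ) = Wt Z κ

/-- **LAF** (medium). uses: CDJ, RES. `J = JJ Z two`, `K = J ⊔ span {f}`. The linear map `R : AA → AA ⧸ J`, `g ↦ [f g]`, has the kernel `JJ Z (res two f)` (RES for every `z ∈ Z`), and its range is the image of `K` in `AA ⧸ J`. So `dim (K/J) = cod (JJ Z (res two f)) = Wt Z (res two f)` (CDJ; `res two f ≤ 2`), and `cod J = cod K + dim (K/J)`,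
`cod J = Wt Z two = 3 #Z`. `wt (2 - od f z) = 3, 1, 0` if `f(z) ≠ 0`; `f(z) = 0` and not double; double. So `cod K = ∑_z (0, 2, 3) = 2 nn Z f + sg Z f`. -/
def LAF_stmt : Prop := ∀ (Z : Finset (ℂ × ℂ)) (f : AA), Fc (JJ Z two ⊔ Ideal.span {f}) ∧ cod (JJ Z two ⊔ Ideal.span {f}) = La Z f

/-- **DEF** (short). uses: DFQ, CDJ. DFQ for `J = JJ Z two`, `cod J = Wt Z two = 3 #Z`, and the definition of `HH`. -/
def DEF_stmt : Prop := ∀ (Z : Finset (ℂ × ℂ)) (i j : ℕ), (df Z i j : ℤ) = 3 * (Z.card : ℤ) - HH Z i j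

/-- **LOB** (short-medium). uses: DFQ, LAF. `K = JJ Z two ⊔ span {f}`: `V i j ⊔ JJ Z two ≤ V i j ⊔ K`, so `df Z i j ≥ finrank (AA ⧸ (V i j ⊔ K)) = hd K i j + La Z f - (i+1)(j+1)` (DFQ, LAF; the quotient by `V i j ⊔ JJ Z two` is finite-dimensional: hypothesis CDJ). `hd K i j ≥ (i+1-a)(j+1-b)` (truncated): if `a ≤ i`, `b ≤ j` the multiples
`f * V (i-a) (j-b)` (injective multiplication, `finrank_V`), otherwise it is `0`. -/
def LOB_stmt : Prop := ∀ (Z : Finset (ℂ × ℂ)) (f : AA) (i j : ℕ), f ≠ 0 → La Z f ≤ df Z i j + chi i j (dX f) (dY f)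

/-- **UPE** (short-medium). uses: DUA, DFQ, LAF, DIV, RNK. `K = JJ Z two ⊔ span {f}`. `df Z i j = finrank (AA ⧸ (V i j ⊔ K))` (DUA) `= hd K i j + La Z f - (i+1)(j+1)` (DFQ, LAF). `V i j ⊓ K = f * V (i-a) (j-b)`: an element `g` of it is in `An φ` (`le_An`, `f ∈ An φ`), and if `¬ f ∣ g` then DIV with `(s,t) = (i,j)` gives `a ≥ 2` and `b ≥ 2`; so `g = f h`,
`h ∈ V (i-a) (j-b)` (`mem_V_of_mul`). So `hd K i j = (i-a+1)(j-b+1)` (`a ≤ p ≤ i`, `b ≤ j`). -/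
def UPE_stmt : Prop := ∀ (Z : Finset (ℂ × ℂ)) (i j p q : ℕ) (φ : AA →ₗ[ℂ] ℂ) (f : AA), φ ≠ 0 → Fu Z i j φ → Mn φ p q f → p ≤ i → q ≤ j →
  (∀ ψ : AA →ₗ[ℂ] ℂ, Fu Z i j ψ → f ∈ An ψ) → (dX f ≤ 1 ∨ dY f ≤ 1) → df Z i j + chi i j (dX f) (dY f) = La Z f

/-- **GRO** (medium). uses: DFQ, DIV, RNK. Suppose `hd (An φ) (s+1) j ≥ hd (An φ) s j + j + 1`. By DFQ the quotients by `U = V s j ⊔ An φ` and `V (s+1) j ⊔ An φ` have the same dimension (the second is at least the first), and `U ≤ V (s+1) j ⊔ An φ`, so they are equal (finite dimension). Hence `x U ≤ U` for `x = C X : AA` (`x * V s j ≤ V (s+1) j`), so by induction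
`V s' j ≤ U` for all `s'` (an element of `V (s'+1) j` is `g₀ + x g₁` with `g₀ ∈ V 0 j`, `g₁ ∈ V s' j`), and `φ = 0` on `U` (`V s j ≤ V i j`; `val_of_mem_An`). So `φ = 0` on `V s' j` for `s' = i + p + 2 #Z`. `g = C (∏_(z ∈ Z) (X - C z.1)^2) ∈ JJ Z two ≤ An φ`, `g ∈ V (2 #Z) 0`, `g ≠ 0`. DIV for `(s', j)` and `g`: if `¬ f ∣ g` then
`s' + 2 ≤ a + 2 #Z`, false; so `f ∣ g` and `dY f ≤ dY g = 0`, a contradiction. -/
def GRO_stmt : Prop := ∀ (Z : Finset (ℂ × ℂ)) (i j p q : ℕ) (φ : AA →ₗ[ℂ] ℂ) (f : AA), φ ≠ 0 → Fu Z i j φ → Mn φ p q f → p ≤ i → q ≤ j → 1 ≤ dY f →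
  ∀ s : ℕ, p ≤ s → s < i → hd (An φ) (s + 1) j ≤ hd (An φ) s j + j

/-- **UPG** (medium). uses: DUA, DFQ, LAF, DIV, RNK, GRO. `p = (i+1)/2`, `q = (j+1)/2`, `2a ≤ i+1`, `2b ≤ j+1`, `K = JJ Z two ⊔ span {f} ≤ An φ`. As in UPE `df Z i j + (i+1)(j+1) = hd K i j + La Z f`, `hd K i j ≤ hd (An φ) i j`. GRO for `s = i+1-a, ..., i-1` (`i+1-a ≥ p`): `hd (An φ) i j ≤ hd (An φ) (i+1-a) j + (a-1) j`.
For `g ∈ An φ ∩ V (i+1-a) j` DIV gives `f ∣ g` (`i + 2 ≤ a + (i+1-a)` is false), `g = f h`, `h ∈ V (i+1-2a) (j-b)`: `hd (An φ) (i+1-a) j ≤ (i+2-2a)(j+1-b)`. And `(i+2-2a)(j+1-b) + (a-1) j = (i+1-a)(j+1-b) + (a-1)(b-1)`. -/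
def UPG_stmt : Prop := ∀ (Z : Finset (ℂ × ℂ)) (i j : ℕ) (φ : AA →ₗ[ℂ] ℂ) (f : AA), φ ≠ 0 → Fu Z i j φ → Mn φ ((i + 1) / 2) ((j + 1) / 2) f →
  (∀ ψ : AA →ₗ[ℂ] ℂ, Fu Z i j ψ → f ∈ An ψ) → 1 ≤ dX f → 1 ≤ dY f → df Z i j + chi i j (dX f) (dY f) ≤ La Z f + (dX f - 1) * (dY f - 1)

/-- the affine form of the theorem (A), (B) -/
def AffAB : Prop := ∀ (Z : Finset (ℂ × ℂ)) (i j : ℕ),
  (∀ f : AA, f ≠ 0 → La Z f ≤ df Z i j + chi i j (dX f) (dY f)) ∧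
  (6 * Z.card < (i + 2) * (j + 2) → ∃ f : AA, f ≠ 0 ∧ CD i j Z.card (dX f) (dY f) ∧ df Z i j + chi i j (dX f) (dY f) ≤ La Z f + (dX f - 1) * (dY f - 1)) ∧
  (2 ≤ i → 2 ≤ j → Z.card + 1 ≤ i + j → ∃ f : AA, f ≠ 0 ∧ CD i j Z.card (dX f) (dY f) ∧ (dX f ≤ 1 ∨ dY f ≤ 1) ∧ df Z i j + chi i j (dX f) (dY f) = La Z f)

/-- **AAB** (short-medium; assembly). uses: NUM, ONC, DUA, LOB, UPE, UPG. First part: LOB. If all functionals with `Fu Z i j` are `0`: `df Z i j = 0` (DUA (2), the quotient by `⊤`), `f = 1`: `La Z 1 = 0`, `chi i j 0 0 = 0`, `CD i j r 0 0`. Otherwise ONC (with NUM); second part: UPG if `dX f, dY f ≥ 1`, UPE otherwise (`p = (i+1)/2 ≤ i`);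
third part: `CD` and NUM give `dX f ≤ 1 ∨ dY f ≤ 1`, UPE. -/
def AAB_stmt : Prop := NUM_stmt → ONC_stmt → DUA_stmt → LOB_stmt → UPE_stmt → UPG_stmt → AffAB

/-! ## E. Projective form -/

open Pool.Agent.helper97.FP in
/-- **AFX** (medium; extension of `helper16/HFN/AFF.lean`). `Y ⊂ ℙ¹ × ℙ¹`; `t, s` with all `P ∈ Y` good (`exists_good`), `Z = Y.image (aff t s)`, `aff_inj`; `HH` as in AFF. For `F ∈ forms a b = range (Th t s a b)` (`range_Th`), `F = Th t s a b v`, take `f = mk a b v` (`AFF_mk`, `mk_mem`, both injective), and conversely (`mk_range`).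
`F ∈ idealPoint P ^ 2 ↔ Dbl v (aff t s P)` (`mem_iff_Dbl`) `↔ Db (aff t s P) f` (`AFF_Dbl`). `F ∈ idealPoint P ↔ ∑ v p α^p.1 β^p.2 = 0 ↔ ev (aff t s P) f = 0`, `(α, β) = aff t s P`: as in `mem_of_Dbl`, `Dbl_of_mem` but easier: modulo `idealPoint P`: `X 1 = α m1`, `X 3 = β m2` (`L1_mem`, `L2_mem`), so `Th v = (∑ v p α^p.1 β^p.2) m1^a m2^b`;
conversely apply `FP97.ev t s α β : R4 →ₐ ℂ`, which kills the generators (`ev_Th`). The two counts agree because `aff t s` is injective on `Y`. -/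
def AFX_stmt : Prop := ∀ Y : Finset Point, ∃ Z : Finset (ℂ × ℂ), Z.card = Y.card ∧ (∀ i j : ℕ, (hilbert (doubleIdeal Y) i j : ℤ) = HH Z i j) ∧
  ∀ a b : ℕ, (∀ F ∈ forms a b, F ≠ 0 → ∃ f ∈ V a b, f ≠ 0 ∧ ln Y F = La Z f) ∧ ∀ f ∈ V a b, f ≠ 0 → ∃ F ∈ forms a b, F ≠ 0 ∧ ln Y F = La Z f

open Pool.Agent.helper97.FP in
/-- THEOREM (A), (B) -/
def MainAB : Prop := ∀ (Y : Finset Point) (i j : ℕ),
  (∀ (a b : ℕ) (F : MvPolynomial (Fin 4) ℂ), F ∈ forms a b → F ≠ 0 → hilbert (doubleIdeal Y) i j + ln Y F ≤ 3 * Y.card + chi i j a b) ∧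
  (6 * Y.card < (i + 2) * (j + 2) → ∃ (a b : ℕ) (F : MvPolynomial (Fin 4) ℂ), F ∈ forms a b ∧ F ≠ 0 ∧ CD i j Y.card a b ∧
    3 * Y.card + chi i j a b ≤ hilbert (doubleIdeal Y) i j + ln Y F + (a - 1) * (b - 1)) ∧
  (2 ≤ i → 2 ≤ j → Y.card + 1 ≤ i + j → ∃ (a b : ℕ) (F : MvPolynomial (Fin 4) ℂ), F ∈ forms a b ∧ F ≠ 0 ∧ CD i j Y.card a b ∧ (a ≤ 1 ∨ b ≤ 1) ∧
    3 * Y.card + chi i j a b = hilbert (doubleIdeal Y) i j + ln Y F)

/-- **MAB** (short; assembly). uses: AffAB, AFX, DEF. `Z` from AFX; DEF: `df Z i j = 3r - H(i,j)`. First part: `f ∈ V a b`, `chi i j (dX f) (dY f) ≤ chi i j a b`. The others: `a = dX f`, `b = dY f`. -/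
def MAB_stmt : Prop := AffAB → AFX_stmt → DEF_stmt → MainAB

/-! ## F. The region `T`: values -/

/-- **NUT** (short; pure arithmetic). `3 (i+j) ≥ 4r - 2 ≥ 22`, so `i + j ≥ 8`; `3 (i + j) ≥ 4r - 2 ≥ 3r + 3 + (r - 5)`. `(i+1)(j+2) = ij + 2i + j + 2 > 2i + j + 1 ≥ 2r`, the same for `(i+2)(j+1)`. CD with `a = 1`, `b ≥ 2`: `b (i+1) + (j+2-b) = b i + j + 2 ≥ 2i + j + 2 > 2r`, a contradiction; `b = 1`, `a ≥ 2` the same. -/
def NUT_stmt : Prop := ∀ r i j : ℕ, 6 ≤ r → TT r i j → r + 1 ≤ i + j ∧ 8 ≤ i + j + 1 ∧ 2 * r < (i + 1) * (j + 2) ∧ 2 * r < (j + 1) * (i + 2) ∧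
  ∀ a b : ℕ, CD i j r a b → a ≤ 1 ∨ b ≤ 1 → a = 0 ∨ b = 0 ∨ (a = 1 ∧ b = 1)

/-- **ROU** (medium). Rows, upper bound. `dX f = 0`: `f = P.map C` with `P : ℂ[X]`, `P ≠ 0`, `natDegree P = dY f = b`; `ev z f = P.eval z.2`, `ev z (Dx f) = 0`, `ev z (Dy f) = P'.eval z.2`. With `e_y = P.rootMultiplicity y`: `z` is on the curve iff `e_(z.2) ≥ 1`, double iff `e_(z.2) ≥ 2`. So `La Z f = ∑_(y ∈ Z.image snd) (2 m_y [e_y ≥ 1] + m_y [e_y ≥ 2])`,
and `chi i j 0 b = (i+1) b` (`b ≤ j+1`), `b ≥ ∑_y min e_y 2` (`∑ rootMultiplicity ≤ natDegree`, or `∏ (X - C y)^(min e_y 2) ∣ P`). Every term: `2m [e ≥ 1] + m [e ≥ 2] ≤ (i+1) min e 2 + max (2m - (i+1)) (3m - 2(i+1))`. -/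
def ROU_stmt : Prop := ∀ (Z : Finset (ℂ × ℂ)) (f : AA) (i j : ℕ), f ≠ 0 → dX f = 0 → dY f ≤ j + 1 → La Z f ≤ chi i j 0 (dY f) + Aa Z i

/-- **ROL** (medium). Rows, the maximum is attained. `e_y = 0` if `2 m_y ≤ i+1`, `1` if `m_y ≤ i+1 < 2 m_y`, `2` if `i+1 < m_y`; `f = ∏_(y ∈ Z.image snd) (X - C (C y))^(e_y)`: `dX f = 0`, `dY f = b = ∑ e_y`; `La Z f ≥ ∑ (2 m_y [e_y ≥ 1] + m_y [e_y ≥ 2])`, and every term is `(i+1) e_y + max (2m - (i+1)) (3m - 2(i+1))`.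
`b (i+1) ≤ ∑_(e_y ≥ 1) 2 m_y ≤ 2 #Z < (i+1)(j+2)`, so `b ≤ j + 1` and `chi i j 0 b = (i+1) b`. -/
def ROL_stmt : Prop := ∀ (Z : Finset (ℂ × ℂ)) (i j : ℕ), 2 * Z.card < (i + 1) * (j + 2) → ∃ f : AA, f ≠ 0 ∧ dX f = 0 ∧ dY f ≤ j + 1 ∧ Aa Z i + chi i j 0 (dY f) ≤ La Z f

/-- **SWZ** (short). Exchange of the variables. `nn (Z.image swap) (sw f) = nn Z f`, `sg` the same (`ev_sw`, `Db_sw`), `mr (Z.image swap) = nc Z`, `(Z.image swap).image snd = Z.image fst`. -/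
def SWZ_stmt : Prop := ∀ Z : Finset (ℂ × ℂ), (Z.image Prod.swap).card = Z.card ∧ (∀ f : AA, La (Z.image Prod.swap) (sw f) = La Z f) ∧ (∀ i : ℕ, Aa (Z.image Prod.swap) i = Bb Z i)

/-- **ROC** (short; assembly). uses: ROU, ROL, SWZ. The same for columns: apply ROU, ROL to `Z.image swap`, `sw f` and `(j, i)`; `chi j i 0 a = chi i j a 0`. -/
def ROC_stmt : Prop := ROU_stmt → ROL_stmt → SWZ_stmt →
  (∀ (Z : Finset (ℂ × ℂ)) (f : AA) (i j : ℕ), f ≠ 0 → dY f = 0 → dX f ≤ i + 1 → La Z f ≤ chi i j (dX f) 0 + Bb Z j) ∧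
  ∀ (Z : Finset (ℂ × ℂ)) (i j : ℕ), 2 * Z.card < (j + 1) * (i + 2) → ∃ f : AA, f ≠ 0 ∧ dY f = 0 ∧ dX f ≤ i + 1 ∧ Bb Z j + chi i j (dX f) 0 ≤ La Z f

/-- **F11** (short-medium). (1) `f = (a x + b) y + (c x + d)`: `f.coeff 1`, `f.coeff 0` of degree `≤ 1`. If `a d - b c = 0` then `f` is reducible: if `(a, b) = 0` or `(c, d) = 0`.. in general `(a x + b, c x + d)` are proportional to one linear (or constant) polynomial `l(x)`: `f = l(x) (u y + w)`; as `dX f = dY f = 1` both factors are non-units.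
(2) `f = C X - X` (that is `x - y`): monic up to sign of degree `1` in `y`, so irreducible (or: factors have degrees summing to `(1,1)`, a factor of degree `(1,0)` is `C (linear)` and would vanish on a vertical line). (3) `C (X - C α) * (X - C (C β))`. -/
def F11_stmt : Prop := (∀ f : AA, I11 f → ∃ a b c d : ℂ, a * d - b * c ≠ 0 ∧ ∀ z : ℂ × ℂ, ev z f = a * z.1 * z.2 + b * z.2 + c * z.1 + d) ∧
  (∃ f : AA, I11 f ∧ ∀ z : ℂ × ℂ, ev z f = z.1 - z.2) ∧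
  ∀ f : AA, dX f = 1 → dY f = 1 → ¬ Irreducible f → ∃ (α β c : ℂ), c ≠ 0 ∧ f = c • (C (X - C α) * (X - C (C β)) : AA)

/-- **C11** (short-medium). uses: F11. (1) `f = c (x - α)(y - β)`: the points on it are in the column `α` or in the row `β`; `(α, β)` is the only double point. `nn = nc Z α + mr Z β - [(α,β) ∈ Z]`, `sg = [(α,β) ∈ Z]`. (2) irreducible: no double point: with F11 (1): `Db z f` means `a z.2 + c = 0`, `a z.1 + b = 0`, `f(z) = 0`, and then `a d - b c = 0`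
(`Dx f = a y + c`, `Dy f = a x + b`; or use SNG-type arguments). (3) `f = (x - α)(y - β)` and (1). (`f` is determined by its values: `ev z f` for all `z`; to compute `Dx f`, `Dy f` write `f` as the explicit polynomial.) -/
def C11_stmt : Prop := F11_stmt → (∀ (Z : Finset (ℂ × ℂ)) (f : AA), dX f = 1 → dY f = 1 → ¬ Irreducible f → ∃ α β : ℂ, La Z f = cr Z α β) ∧
  (∀ (Z : Finset (ℂ × ℂ)) (f : AA), I11 f → La Z f = 2 * nn Z f) ∧
  ∀ (Z : Finset (ℂ × ℂ)) (α β : ℂ), ∃ f : AA, f ≠ 0 ∧ dX f = 1 ∧ dY f = 1 ∧ La Z f = cr Z α β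

/-- **IMX** (short). uses: F11 (2). The numbers `nn Z f`, `f` irreducible of bidegree `(1,1)`, are bounded by `#Z`, and there is such an `f`: a maximum exists (`Nat.sSup_mem` or `Nat.findGreatest`). -/
def IMX_stmt : Prop := F11_stmt → ∀ Z : Finset (ℂ × ℂ), ∃ v : ℕ, IsMx Z v

open Pool.Agent.helper29.JZ in
/-- **TRM** (medium; counting). `Z = ZZ x y M`, `x`, `y` injective: `z ↦ (x z.1, y z.2)` is a bijection `M → Z`; `mr Z (y m) = row M m`, `nc Z (x k) = col M k`, `Z.image snd = univ.image y` (no empty row). `cr Z (x k) (y m)` is the term of `XM M`. If `α` is not an `x k`: `nc Z α = 0`, `(α, β) ∉ Z`; if `β = y m` choose any `k` (there is one, as `row M m ≥ 1`):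
`2 row M m ≤ 2 col M k + 2 row M m - 1`. If neither: `0`. The last part: `Finset.exists_mem_eq_sup` (`M` is not empty, so `univ` is not empty). -/
def TRM_stmt : Prop := ∀ (h h' : ℕ) (x : Fin h → ℂ) (y : Fin h' → ℂ) (M : Finset (Fin h × Fin h')), Function.Injective x → Function.Injective y →
  (∀ k, 1 ≤ col M k) → (∀ m, 1 ≤ row M m) → 1 ≤ M.card →
  (ZZ x y M).card = M.card ∧ (∀ i, Aa (ZZ x y M) i = AM M i) ∧ (∀ j, Bb (ZZ x y M) j = BM M j) ∧ (∀ α β : ℂ, cr (ZZ x y M) α β ≤ XM M) ∧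
  ∃ α β : ℂ, cr (ZZ x y M) α β = XM M

open Pool.Agent.helper29.JZ in
/-- the values on `T` -/
def Val : Prop := ∀ (h h' : ℕ) (x : Fin h → ℂ) (y : Fin h' → ℂ) (M : Finset (Fin h × Fin h')) (v : ℕ), Function.Injective x → Function.Injective y →
  (∀ k, 1 ≤ col M k) → (∀ m, 1 ≤ row M m) → 6 ≤ M.card → IsMx (ZZ x y M) v → ∀ i j : ℕ, TT M.card i j → df (ZZ x y M) i j = Mx M v i j

/-- **VAL** (short-medium; assembly). The hypotheses are the conclusions of ROU, ROL, ROC, C11. `Z = ZZ x y M`, TRM. NUT: `i, j ≥ 2`, `r + 1 ≤ i + j`. Upper bound: `f` from `AffAB` (third part), `CD`; NUT: `dX f = 0` (rows: `df ≤ Aa`), `dY f = 0` (columns), or `(1,1)`: `chi i j 1 1 = i + j + 1`, `La Z f = 2 nn Z f ≤ 2v` or `La Z f = cr Z α β ≤ XM M`.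
Lower bounds: the first part of `AffAB` for the curves of ROL, ROC, C11 (3) (with `α β` of TRM) and the irreducible curve with `v` points. -/
def VAL_stmt : Prop := AffAB → NUT_stmt → ROU_stmt → ROL_stmt →
  ((∀ (Z : Finset (ℂ × ℂ)) (f : AA) (i j : ℕ), f ≠ 0 → dY f = 0 → dX f ≤ i + 1 → La Z f ≤ chi i j (dX f) 0 + Bb Z j) ∧
    ∀ (Z : Finset (ℂ × ℂ)) (i j : ℕ), 2 * Z.card < (j + 1) * (i + 2) → ∃ f : AA, f ≠ 0 ∧ dY f = 0 ∧ dX f ≤ i + 1 ∧ Bb Z j + chi i j (dX f) 0 ≤ La Z f) →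
  ((∀ (Z : Finset (ℂ × ℂ)) (f : AA), dX f = 1 → dY f = 1 → ¬ Irreducible f → ∃ α β : ℂ, La Z f = cr Z α β) ∧
    (∀ (Z : Finset (ℂ × ℂ)) (f : AA), I11 f → La Z f = 2 * nn Z f) ∧
    ∀ (Z : Finset (ℂ × ℂ)) (α β : ℂ), ∃ f : AA, f ≠ 0 ∧ dX f = 1 ∧ dY f = 1 ∧ La Z f = cr Z α β) → TRM_stmt → Val

/-! ## G. The region `T`: necessary and sufficient -/

open Pool.Agent.helper29.JZ in
/-- **PRM** (short-medium). uses: F11. `W = {z ∈ M : ev (x z.1, y z.2) f = 0}`. `#W = nn (ZZ x y M) f` (bijection). If `z, z' ∈ W` have the same column and `y z.2 ≠ y z'.2`: subtract the two equations of F11 (1): `a X + b = 0` and then `c X + d = 0` (`X = x z.1`), so `a d - b c = 0` (`a (c X + d) - c (a X + b)`). The same for rows. -/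
def PRM_stmt : Prop := F11_stmt → ∀ (h h' : ℕ) (x : Fin h → ℂ) (y : Fin h' → ℂ) (M : Finset (Fin h × Fin h')), Function.Injective x → Function.Injective y →
  ∀ f : AA, I11 f → ∃ W ⊆ M, PP W ∧ W.card = nn (ZZ x y M) f

/-- **GE1** (short; pure algebra). Two Moebius curves with three common points with different first coordinates are proportional. The equation is `(a u + b) w + (c u + d) = 0`. `R(u) = (a u + b)(c' u + d') - (a' u + b')(c u + d)` is a polynomial of degree `≤ 2` with the three zeros `u 0, u 1, u 2`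
(eliminate `w`), so its coefficients vanish: `a c' = a' c`, `b d' = b' d`, `a d' + b c' = a' d + b' c`. As `a d - b c ≠ 0`, `(a, c) ≠ 0`, `(b, d) ≠ 0`, so `(a', c') = k (a, c)`, `(b', d') = k' (b, d)`, and `k' a d + k b c = k a d + k' b c`, `(k' - k)(a d - b c) = 0`. `k ≠ 0` as `a' d' - b' c' ≠ 0`. -/
def GE1_stmt : Prop := ∀ (a b c d a' b' c' d' : ℂ) (u w : Fin 3 → ℂ), a * d - b * c ≠ 0 → a' * d' - b' * c' ≠ 0 → Function.Injective u →
  (∀ k, a * u k * w k + b * w k + c * u k + d = 0) → (∀ k, a' * u k * w k + b' * w k + c' * u k + d' = 0) →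
  ∃ k : ℂ, k ≠ 0 ∧ a' = k * a ∧ b' = k * b ∧ c' = k * c ∧ d' = k * d

/-- **GE2** (short; pure algebra). For a Moebius curve which is not the diagonal, the new coordinates which would give a further point are finitely many: (1) `(a t + b) w + (c t + d) = 0` for fixed `w`: a nonzero polynomial in `t` (`a w + c`, `b w + d` are not both `0`, as `a d - b c ≠ 0`); (2) fixed `t`: the same; (3) `a t² + (b + c) t + d = 0`: nonzero polynomial. -/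
def GE2_stmt : Prop := ∀ a b c d : ℂ, a * d - b * c ≠ 0 → ¬ (a = 0 ∧ d = 0 ∧ b + c = 0) →
  (∀ w : ℂ, {t : ℂ | a * t * w + b * w + c * t + d = 0}.Finite) ∧ (∀ t : ℂ, {w : ℂ | a * t * w + b * w + c * t + d = 0}.Finite) ∧
  {t : ℂ | a * t * t + b * t + c * t + d = 0}.Finite

/-- **GE3** (short-medium). uses: GE1, GE2. Given finitely many numbers `z`, all new numbers `t` which are bad for some Moebius curve (not the diagonal) with three points `(z p.1, z p.2)` with different first coordinates are in a finite set. For every triple `T : Fin 3 → Fin n × Fin n` with `z (T k).1` different: if there is such a curve, all of them are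
proportional (GE1), so the bad `t` for one of them are the bad `t` for all; they are finitely many (GE2; `n` values of the other coordinate). Finite union over the triples. -/
def GE3_stmt : Prop := ∀ (n : ℕ) (z : Fin n → ℂ), {t : ℂ | ∃ a b c d : ℂ, a * d - b * c ≠ 0 ∧ ¬ (a = 0 ∧ d = 0 ∧ b + c = 0) ∧
    (∃ T : Fin 3 → Fin n × Fin n, Function.Injective (fun k => z (T k).1) ∧ ∀ k, a * z (T k).1 * z (T k).2 + b * z (T k).2 + c * z (T k).1 + d = 0) ∧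
    ((∃ m, a * t * z m + b * z m + c * t + d = 0) ∨ (∃ m, a * z m * t + b * t + c * z m + d = 0) ∨ a * t * t + b * t + c * t + d = 0)}.Finite

/-- the number of pairs on a Moebius curve -/
def Gz (n : ℕ) (z : Fin n → ℂ) : Prop := Function.Injective z ∧ ∀ a b c d : ℂ, a * d - b * c ≠ 0 → ¬ (a = 0 ∧ d = 0 ∧ b + c = 0) →
  ∀ S : Finset (Fin n × Fin n), (∀ p ∈ S, a * z p.1 * z p.2 + b * z p.2 + c * z p.1 + d = 0) → S.card ≤ 4

/-- **GEN** (medium). uses: GE3. Generic numbers. Induction on `n`: `z' = Fin.snoc z t` (or `Fin.cons`), `t` outside the finite set of GE3 and different from all `z m` (`ℂ` is infinite). Let `S` be a set of pairs on a curve. For every first index there is at most one pair of `S`, for every second index too (`(a u + b) w + (c u + d) = 0`, `a d - b c ≠ 0`, `z'` injective). The pairs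
which contain the new index are at most two (one with the new index as first, one as second component). If there is none, `S` is a set of pairs of the old indices: `≤ 4`. If there is one and `#S ≥ 5` then at least three pairs contain only old indices, they have different first components, and `t` is in the set of GE3, a contradiction. -/
def GEN_stmt : Prop := GE3_stmt → ∀ n : ℕ, ∃ z : Fin n → ℂ, Gz n z

open Pool.Agent.helper29.JZ in
/-- **RLZ** (medium). uses: GEN (its conclusion), F11, IMX. `n = h + h'`, `z` from GEN, `W ⊆ M` with `PP W`, `#W = v`. `x k = z k` (`Fin.castAdd`), `y m = z k` if `(k, m) ∈ W` (`k` is unique), otherwise `y m = z (h + m)` (`Fin.natAdd`). `x`, `y` are injective (`PP W`). `x k = y m ↔ (k, m) ∈ W`. The curve `x - y` (F11 (2)) has exactly `v` points of `Z = ZZ x y M`.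
Another irreducible curve (F11 (1)): if `a = 0`, `d = 0`, `b + c = 0` then it has the same zeros as `x - y`: `v` points. Otherwise its points `(k, m) ∈ M` give different pairs of indices of `z`, so at most `4` (`Gz`). IMX gives `v'` with `IsMx Z v'`: `v ≤ v' ≤ max v 4`. -/
def RLZ_stmt : Prop := (∀ n : ℕ, ∃ z : Fin n → ℂ, Gz n z) → F11_stmt → (∀ Z : Finset (ℂ × ℂ), ∃ v : ℕ, IsMx Z v) →
  ∀ (h h' : ℕ) (M : Finset (Fin h × Fin h')) (v : ℕ), (∃ W ⊆ M, PP W ∧ W.card = v) →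
  ∃ (x : Fin h → ℂ) (y : Fin h' → ℂ), Function.Injective x ∧ Function.Injective y ∧ ∃ v' : ℕ, IsMx (ZZ x y M) v' ∧ v ≤ v' ∧ v' ≤ max v 4

open Pool.Agent.helper97.FP in
/-- THEOREM (C): the classification on `T` -/
def MainC : Prop := ∀ r : ℕ, 6 ≤ r →
  (∀ Y : Finset Point, Y.card = r → ∃ (h h' : ℕ) (M : Finset (Fin h × Fin h')) (v : ℕ), Dat M r v ∧
    ∀ i j : ℕ, TT r i j → hilbert (doubleIdeal Y) i j + Mx M v i j = 3 * r) ∧
  ∀ (h h' : ℕ) (M : Finset (Fin h × Fin h')) (v : ℕ), Dat M r v → ∃ Y : Finset Point, Y.card = r ∧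
    ∀ i j : ℕ, TT r i j → hilbert (doubleIdeal Y) i j + Mx M v i j = 3 * r

open Pool.Agent.helper29.JZ in
/-- **MNC** (short-medium; assembly). `AFF_stmt` is the row AFF of HFN, `EXM_stmt` the row EXM of JZ. First half: `Z` (AFF), `x, y, M` (EXM), `v` with `IsMx Z v`, `f` irreducible with `nn Z f = v`, `W` (PRM); `Val` and DEF. Second half: RLZ gives `x, y, v'`; `Z = ZZ x y M`, `#Z = r` (TRM), `Val` with `v'`; `Mx M v' i j = Mx M v i j`, as `v' = v` or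
`v ≤ v' ≤ 4` and `2 v' ≤ 8 ≤ i + j + 1` (NUT). AFF gives `Y`. -/
def MNC_stmt : Prop := AFF_stmt → EXM_stmt → DEF_stmt → NUT_stmt → TRM_stmt → Val → (∀ Z : Finset (ℂ × ℂ), ∃ v : ℕ, IsMx Z v) →
  (∀ (h h' : ℕ) (x : Fin h → ℂ) (y : Fin h' → ℂ) (M : Finset (Fin h × Fin h')), Function.Injective x → Function.Injective y →
    ∀ f : AA, I11 f → ∃ W ⊆ M, PP W ∧ W.card = nn (ZZ x y M) f) →
  (∀ (h h' : ℕ) (M : Finset (Fin h × Fin h')) (v : ℕ), (∃ W ⊆ M, PP W ∧ W.card = v) →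
    ∃ (x : Fin h → ℂ) (y : Fin h' → ℂ), Function.Injective x ∧ Function.Injective y ∧ ∃ v' : ℕ, IsMx (ZZ x y M) v' ∧ v ≤ v' ∧ v' ≤ max v 4) → MainC

end

end Pool.Agent.HFE
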