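import Pool.Agent.helper41.HFE.Spec

/-!
# Project HFE (MP_3221a1_ag), block D, rows `hfe:D*`: the classification on `{i + j ≥ r + 1, i, j ≥ 5 √r}`

GOAL (`MainD`). On the region `Om r`: `i + j ≥ r + 1`, `i² ≥ 25 r`, `j² ≥ 25 r` (asymptotically the half of the inner square) the functions of `H(r)` are EXACTLY the functions `3r - Df M W a b`, where `M` is a 0-1 matrix with `r` ones (incidence matrix of `Y`) and
`W ⊆ M` the set of the points on ONE curve `g` of bidegree `(a, b)`, `a = 1` or `b = 1` (at most `a` points of `W` in every row, at most `b` in every column): `Df` is the maximum of `length - conditions` over the divisors `ε g + rows + columns`.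

IDEA. By `AffAB` the defect is `La Z f - chi` for one curve `f` with `dX f ≤ 1` or `dY f ≤ 1`, `f = g * (rows)`, `g` irreducible. If `f` is better than the rows alone then `g` is `Big`: `2 nn Z g + s ≥ r + 3 + w (deg - 1)` with `s ≤ 2r/(w+1)`, `w ≥ 5 √r`; two different `Big` curves would have too many
common points (Bezout). Realization: `g₀ : x = y^b`, coordinates `x = t^b`, `y = ζ t` for generic `t`.

RULES as in `Spec.lean`: file `Pool/Agent/<seat>/HFE/XXX.lean`, `import Pool.Agent.helper41.HFE.SpecD`, `open Polynomial Module Pool.Agent.HFN`, `namespace Pool.Agent.HFE`, theorem line exactly as in the lock note. In the docstrings `x = C X`, `y = X` in `AA = ℂ[X][X]`; `r = #Z`, `v = nn Z g`.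
-/

set_option autoImplicit false

open Polynomial Module Pool.Agent.HFN

namespace Pool.Agent.HFE

noncomputable section

/-- the length of a double point on a curve with multiplicity `m` there: `0, 2, 3, 3, ...` -/
def ph (m : ℕ) : ℕ := if m = 0 then 0 else if m = 1 then 2 else 3

/-- the region -/
def Om (r i j : ℕ) : Prop := r + 1 ≤ i + j ∧ 25 * r ≤ i * i ∧ 25 * r ≤ j * j

section Mat

open Pool.Agent.helper29.JZ

variable {h h' : ℕ} (M W : Finset (Fin h × Fin h'))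

/-- the length of the intersection of the double points with the divisor `ε g + ∑ e' k (column k) + ∑ e m (row m)`, `g` a curve with the points `W` -/
def Lm (ε : ℕ) (e' : Fin h → ℕ) (e : Fin h' → ℕ) : ℕ := ∑ p ∈ M, ph ((if p ∈ W then ε else 0) + e' p.1 + e p.2)

/-- the maximum of `length - conditions` (truncated at `0`) over the divisors `ε g + columns + rows`, `ε = 0, 1`, multiplicities `0, 1, 2` -/
def Df (a b i j : ℕ) : ℕ := Finset.univ.sup fun q : Fin 2 × (Fin h → Fin 3) × (Fin h' → Fin 3) =>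
  Lm M W q.1 (fun k => q.2.1 k) (fun m => q.2.2 m) - chi i j (q.1 * a + ∑ k, (q.2.1 k : ℕ)) (q.1 * b + ∑ m, (q.2.2 m : ℕ))

/-- the data of the classification on `Om` -/
def DatD (a b r : ℕ) : Prop := M.card = r ∧ (∀ k, 1 ≤ col M k) ∧ (∀ m, 1 ≤ row M m) ∧ 1 ≤ a ∧ 1 ≤ b ∧ (a = 1 ∨ b = 1) ∧ 25 * (a * b - 1) ^ 2 ≤ r ∧
  W ⊆ M ∧ (∀ m, row W m ≤ a) ∧ ∀ k, col W k ≤ b

end Mat

/-- the curves which can matter on `Om` -/
def Big (Z : Finset (ℂ × ℂ)) (g : AA) : Prop := Irreducible g ∧ (dX g = 1 ∨ dY g = 1) ∧ 1 ≤ dX g ∧ 1 ≤ dY g ∧ 25 < Z.card ∧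
  ∃ w s : ℕ, 25 * Z.card ≤ w * w ∧ (w + 1) * s + 2 * nn Z g ≤ 2 * Z.card ∧ Z.card + 3 + w * (dX g * dY g - 1) ≤ 2 * nn Z g + s ∧
    (s = 0 ∨ (∃ y : ℂ, w < 2 * mr Z y ∧ ∀ z ∈ Z, z.2 = y → ev z g ≠ 0) ∨ ∃ x : ℂ, w < 2 * nc Z x ∧ ∀ z ∈ Z, z.1 = x → ev z g ≠ 0)

/-- the curve `x = y^b` -/
def g0 (b : ℕ) : AA := C X - X ^ b

/-! ## D1. Curves of bidegree `(1, b)` -/

/-- **LAP** (short). `La Z f = ∑ ph (od f z)`: `ph (od f z) = 2 [ev z f = 0] + [Db z f]`. -/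
def LAP_stmt : Prop := ∀ (Z : Finset (ℂ × ℂ)) (f : AA), La Z f = ∑ z ∈ Z, ph (od f z)

/-- **SMO** (short-medium). `dY g = 1`: `g = A y + B`, `A, B : ℂ[X]` the coefficients. `Db z g`: `ev z (Dy g) = A(z.1) = 0`, then `B(z.1) = 0`, so `C (X - C z.1) ∣ g`, and they are associated (`g` irreducible), so `dY g = 0`. `dX g = 1`: the same for `sw g` (`Db_sw`, `MulEquiv.irreducible_iff`). -/
def SMO_stmt : Prop := ∀ (g : AA) (z : ℂ × ℂ), Irreducible g → (dX g = 1 ∨ dY g = 1) → 1 ≤ dX g → 1 ≤ dY g → ¬ Db z g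

/-- **HIT** (short-medium). `P = g.map (evalRingHom x) : ℂ[X]`, `ev (x, y) g = P.eval y`, degree `≤ dY g`. `P ≠ 0`: otherwise `C (X - C x) ∣ g`, associated, `dY g = 0`. `card_roots'`. The second half: `sw g`. -/
def HIT_stmt : Prop := ∀ g : AA, Irreducible g → 1 ≤ dX g → 1 ≤ dY g →
  (∀ (x : ℂ) (S : Finset ℂ), (∀ y ∈ S, ev (x, y) g = 0) → S.card ≤ dY g) ∧ ∀ (y : ℂ) (S : Finset ℂ), (∀ x ∈ S, ev (x, y) g = 0) → S.card ≤ dX g

/-- **FCX** (short-medium). Induction on `dY f`: `f` is not a unit (`dX f = 1`), `g ∣ f` irreducible, `f = g f'`. `dX g = 1`: done (`dX f' = 0`). `dX g = 0`: `dX f' = 1`, `dY g ≥ 1` (not a unit), so `dY f' < dY f`, `f' = g' f''`, `f = g' (g f'')`. -/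
def FCX_stmt : Prop := ∀ f : AA, f ≠ 0 → dX f = 1 → ∃ g f1 : AA, f = g * f1 ∧ Irreducible g ∧ dX g = 1 ∧ f1 ≠ 0 ∧ dX f1 = 0

/-- **ROM** (short-medium; see `helper69/HFE/ROU.lean`). `f = P.map C`, `e y = min 2 (P.rootMultiplicity y)`; `∑_(y ∈ S) rootMultiplicity ≤ natDegree P = dY f`. -/
def ROM_stmt : Prop := ∀ f : AA, f ≠ 0 → dX f = 0 → ∃ e : ℂ → ℕ, (∀ y, e y ≤ 2) ∧ (∀ z : ℂ × ℂ, od f z = e z.2) ∧ ∀ S : Finset ℂ, ∑ y ∈ S, e y ≤ dY f

/-- **REL** (medium, key). uses: LAP, SMO, HIT, ROM, ODM. `b = dY g`, `e` from ROM for `f`; `od (g f) z = min 2 (od g z + e z.2)` (ODM), `od g z ≤ 1` (SMO). Every row `y` contains `δ_y ≤ 1` points of `Z` on `g` (HIT, `dX g = 1`), `m = mr Z y`. The row contributes to `La Z (g f)`: `2δ` (`e = 0`), `2m + δ` (`e = 1`), `3m` (`e = 2`). Put `A_y = max (2m - (i+1)) (3m - 2(i+1))` (the term of `Aa Z i`),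
`E_y = 0` if `2m ≤ i`; `1` if `i < 2m`, `m ≤ i`; `2` if `i < m`. In all cases the contribution is `≤ 2δ + i e + A_y + (1 - δ) E_y`. Sum over `y ∈ Z.image snd`: `La Z (g f) ≤ 2v + i dY f + Aa Z i + s`, `s = ∑_(δ_y = 0) E_y`, and `chi i j 1 (b + dY f) = (j+1) + i (b + dY f)`. So the hypothesis gives `2v + s ≥ j + 2 + i b ≥ r + 3 + i (b-1)`.
`(i+1) E_y ≤ 2 m_y`, and the points in the rows with `δ_y = 0` are not on `g`: `(i+1) s ≤ 2 (r - v)`; so `2v + s ≤ 2r`. If `s ≠ 0` there is a row with `δ_y = 0`, `i < 2 m_y`. `w = i`. `25 < r`: `i + j + 2 ≤ j + 2 + i b ≤ 2r`; if `r ≤ 25` then `i² ≥ 25 r ≥ r²`, `i ≥ r`, `j ≥ r`, a contradiction. -/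
def REL_stmt : Prop := ∀ (Z : Finset (ℂ × ℂ)) (g f : AA) (i j : ℕ), Irreducible g → dX g = 1 → 1 ≤ dY g → f ≠ 0 → dX f = 0 → Om Z.card i j → dY g + dY f ≤ j + 1 →
  chi i j 1 (dY g + dY f) + Aa Z i < La Z (g * f) → Big Z g

/-- **UNQ** (medium, key). uses: BZT, HIT. `β = dX g dY g - 1`, `ρ = √r > 5`, `w ≥ 5ρ`. From `2v + s ≤ 2r` (as `s ≤ (w+1) s`): `w β ≤ r - 3`, `β ≤ ρ/5`; `(w+1) s ≤ 2r`: `s ≤ 2ρ/5`; the same for `g'`. Suppose they are not associated; BZT (`C = g`, `f = g'`, `S2 = ∅`, `S1 = Z ∩ g ∩ g'`): `#S1 ≤ dX g' dY g + dY g' dX g ≤ ββ' + β + β' + 2` (in the four cases), `v + v' ≤ r + #S1`. So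
`2r + 6 + wβ + w'β' ≤ 2(v + v') + s + s' ≤ 2r + 2ββ' + 2β + 2β' + 4 + s + s'`; `2ββ' ≤ (ρ/5)(β + β')`: `2 + (4.8ρ - 2)(β + β') ≤ s + s' ≤ 0.8ρ`, so `β = β' = 0` (`4.8ρ > 0.8ρ`), both of bidegree `(1,1)`, and `s + s' ≥ 2`. Say `s ≠ 0` (the other case is symmetric): a row or column `N` with `w < 2m`, `m = #(Z ∩ N)`, without points on `g`; `g'` has at most
one point on it (HIT): `#(Z ∩ (g ∪ g')) ≤ r - m + 1`, `v + v' ≤ r - m + 3`, so `2m ≤ s + s' ≤ 0.8ρ < 5ρ ≤ w < 2m`. -/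
def UNQ_stmt : Prop := ∀ (Z : Finset (ℂ × ℂ)) (g g' : AA), Big Z g → Big Z g' → Associated g g'

/-! ## D2. The two bounds -/

open Pool.Agent.helper29.JZ in
/-- **ADF** (short-medium; counting). `ε = 0`, `e' = 0`, `e m = 0` if `2 row ≤ i+1`, `1` if `row ≤ i+1 < 2 row`, `2` if `i+1 < row`: `Lm = ∑_m row M m * ph (e m)` (fibers), every term is `(i+1) e m + max (2 row - (i+1)) (3 row - 2(i+1))`, and `chi i j 0 n ≤ (i+1) n`. Columns: the same. -/
def ADF_stmt : Prop := ∀ (h h' : ℕ) (M W : Finset (Fin h × Fin h')) (a b i j : ℕ), AM M i ≤ Df M W a b i j ∧ BM M j ≤ Df M W a b i j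

open Pool.Agent.helper29.JZ in
/-- **LOD** (medium). uses: LOB, LAP, SMO, ODM. For `(ε, e', e)` take `f = g^ε * ∏_k C (X - C (x k))^(e' k) * ∏_m (X - C (C (y m)))^(e m)`: `dX f = ε a + ∑ e'`, `dY f = ε b + ∑ e` (`dX_mul`, `dX_pow`, ...). `od f (x k, y m) = min 2 (ε [(k,m) ∈ W] + e' k + e m)` by ODM (`od g z = 1` on `g`, `0` otherwise, SMO; `od` of a line is `1` on it), `ph (min 2 n) = ph n`;
so `La Z f = Lm M W ε e' e` (LAP, sum over `M` by injectivity), and LOB. The second part (`W = ∅`): take `g = 1`, `chi i j (∑ e') (∑ e) ≤ chi i j (ε a + ∑ e') (ε b + ∑ e)`. -/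
def LOD_stmt : Prop := (∀ (h h' : ℕ) (x : Fin h → ℂ) (y : Fin h' → ℂ) (M W : Finset (Fin h × Fin h')) (a b : ℕ) (g : AA), Function.Injective x → Function.Injective y →
    Irreducible g → dX g = a → dY g = b → 1 ≤ a → 1 ≤ b → (a = 1 ∨ b = 1) → (∀ p ∈ M, (p ∈ W ↔ ev (x p.1, y p.2) g = 0)) → ∀ i j : ℕ, Df M W a b i j ≤ df (ZZ x y M) i j) ∧
  ∀ (h h' : ℕ) (x : Fin h → ℂ) (y : Fin h' → ℂ) (M : Finset (Fin h × Fin h')) (a b : ℕ), Function.Injective x → Function.Injective y →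
    ∀ i j : ℕ, Df M ∅ a b i j ≤ df (ZZ x y M) i j

open Pool.Agent.helper29.JZ in
/-- all `Big` curves have the bidegree `(a, b)` and the points `W` -/
def HBg {h h' : ℕ} (x : Fin h → ℂ) (y : Fin h' → ℂ) (M W : Finset (Fin h × Fin h')) (a b : ℕ) : Prop :=
  ∀ g : AA, Big (ZZ x y M) g → dX g = a ∧ dY g = b ∧ ∀ p ∈ M, (p ∈ W ↔ ev (x p.1, y p.2) g = 0)

open Pool.Agent.helper29.JZ in
/-- the upper bound for curves with `dX f ≤ 1` -/
def UpX : Prop := ∀ (h h' : ℕ) (x : Fin h → ℂ) (y : Fin h' → ℂ) (M W : Finset (Fin h × Fin h')) (a b : ℕ), Function.Injective x → Function.Injective y →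
  (∀ k, 1 ≤ col M k) → (∀ m, 1 ≤ row M m) → 1 ≤ M.card → HBg x y M W a b → ∀ i j : ℕ, Om M.card i j → ∀ f : AA, f ≠ 0 → dX f ≤ 1 → dY f ≤ j + 1 →
  La (ZZ x y M) f ≤ chi i j (dX f) (dY f) + Df M W a b i j

open Pool.Agent.helper29.JZ in
/-- the upper bound for curves with `dY f ≤ 1` -/
def UpY : Prop := ∀ (h h' : ℕ) (x : Fin h → ℂ) (y : Fin h' → ℂ) (M W : Finset (Fin h × Fin h')) (a b : ℕ), Function.Injective x → Function.Injective y →
  (∀ k, 1 ≤ col M k) → (∀ m, 1 ≤ row M m) → 1 ≤ M.card → HBg x y M W a b → ∀ i j : ℕ, Om M.card i j → ∀ f : AA, f ≠ 0 → dY f ≤ 1 → dX f ≤ i + 1 →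
  La (ZZ x y M) f ≤ chi i j (dX f) (dY f) + Df M W a b i j

/-- **UPX** (medium). `Z = ZZ x y M`, TRM: `Aa Z i = AM M i ≤ Df` (ADF). `dX f = 0`: ROU. `dX f = 1`: FCX `f = g f1`, ROM for `f1`: `e`. `chi` is monotone in both degrees, `∑_m e (y m) ≤ dY f1` (`S = univ.image y`).
(1) `dY g ≥ 1`. If `La Z f ≤ chi i j 1 (dY f) + Aa Z i`: done. Otherwise `Big Z g` (REL), so `a = 1`, `b = dY g` and `W` are the points on `g` (`HBg`): `od g z = 1` or `0` (SMO), `La Z f = Lm M W 1 0 (fun m => e (y m))` (LAP, ODM), which is at most `chi i j (1 a + 0) (1 b + ∑ e) + Df`.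
(2) `dY g = 0`: `g = C p`, `p` of degree `1`, root `α`: `od g z = [z.1 = α]`. `α = x k₀`: `La Z f = Lm M W 0 (indicator of k₀) e`. `α` not an `x k`: `La Z f = Lm M W 0 0 e`, `chi i j 0 (∑ e) ≤ chi i j 1 (dY f)`. -/
def UPX_stmt : Prop := LAP_stmt → SMO_stmt → ODM_stmt → FCX_stmt → ROM_stmt → REL_stmt → ADF_stmt → TRM_stmt → ROU_stmt → UpX

open Pool.Agent.helper29.JZ in
/-- **SWB** (medium). uses: DEF. Exchange of the variables. (1) `Big`: `Irreducible (sw g)` (`MulEquiv.irreducible_iff`), `dX`, `dY` and `mr`, `nc` are exchanged, `nn` is the same (`ev_sw`). (2) `df`: `JJ (Z.image swap) two = (JJ Z two).comap sw` (`Db_sw`), `hd` (`TWO_hd` in `helper93/HFN/TWO.lean`), DEF. (3) `ZZ y x (tr M)`. (4) `Df`: exchange the two functions;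
`(tr M)` is the image of `M`. (5) `Om`. -/
def SWB_stmt : Prop := (∀ (Z : Finset (ℂ × ℂ)) (g : AA), Big (Z.image Prod.swap) (sw g) ↔ Big Z g) ∧ (∀ (Z : Finset (ℂ × ℂ)) (i j : ℕ), df (Z.image Prod.swap) j i = df Z i j) ∧
  (∀ (h h' : ℕ) (x : Fin h → ℂ) (y : Fin h' → ℂ) (M : Finset (Fin h × Fin h')), ZZ y x (tr M) = (ZZ x y M).image Prod.swap) ∧
  (∀ (h h' : ℕ) (M W : Finset (Fin h × Fin h')) (a b i j : ℕ), Df (tr M) (tr W) b a j i = Df M W a b i j) ∧ ∀ r i j : ℕ, Om r i j → Om r j i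

open Pool.Agent.helper29.JZ in
/-- **UPY** (short-medium). UpX for `(y, x, tr M, tr W, b, a)`, `(j, i)` and `sw f`. `TRA_stmt` (of JZ): `(tr M).card = M.card`, `col (tr M) = row M`, `row (tr M) = col M`. `HBg y x (tr M) (tr W) b a`: a `Big` curve `g` of `Z.image swap` is `sw (sw g)`, `Big Z (sw g)` (SWB). SWZ: `La (Z.image swap) (sw f) = La Z f`; `chi j i b' a' = chi i j a' b'`. -/
def UPY_stmt : Prop := SWB_stmt → SWZ_stmt → TRA_stmt → UpX → UpY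

open Pool.Agent.helper29.JZ in
/-- the upper bound for the defect -/
def Core : Prop := ∀ (h h' : ℕ) (x : Fin h → ℂ) (y : Fin h' → ℂ) (M W : Finset (Fin h × Fin h')) (a b : ℕ), Function.Injective x → Function.Injective y →
  (∀ k, 1 ≤ col M k) → (∀ m, 1 ≤ row M m) → 1 ≤ M.card → HBg x y M W a b → ∀ i j : ℕ, Om M.card i j → df (ZZ x y M) i j ≤ Df M W a b i j

/-- **COR** (short; assembly). `i, j ≥ 2` (`i * i ≥ 25`). `AffAB`, third part (`(ZZ x y M).card = M.card`, TRM): `f` with `df + chi = La`, `CD` gives `dX f ≤ i + 1`, `dY f ≤ j + 1`. -/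
def COR_stmt : Prop := AffAB → TRM_stmt → UpX → UpY → Core

/-- the necessary part -/
def Nec : Prop := ∀ Z : Finset (ℂ × ℂ), 1 ≤ Z.card → ∃ (h h' : ℕ) (M W : Finset (Fin h × Fin h')) (a b : ℕ), DatD M W a b Z.card ∧
  ∀ i j : ℕ, Om Z.card i j → df Z i j = Df M W a b i j

open Pool.Agent.helper29.JZ in
/-- **NEC** (short-medium). EXM: `x, y, M`, `ZZ x y M = Z`. If some `g` is `Big`: `a = dX g`, `b = dY g`, `W = {p ∈ M : ev (x p.1, y p.2) g = 0}`. `DatD`: `25 (a b - 1)² ≤ r` from `w (ab - 1) ≤ r - 3` and `25 r ≤ w²`; `row W m ≤ a`, `col W k ≤ b`: HIT and injectivity. `HBg`: every other `Big` curve is associated to `g` (UNQ): same degrees, same zeros. `Core` and LOD (1).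
If there is none: `a = b = 1`, `W = ∅`, `HBg` is empty, LOD (2). -/
def NEC_stmt : Prop := EXM_stmt → UNQ_stmt → HIT_stmt → LOD_stmt → Core → Nec

/-! ## D3. Generic numbers and the realization -/

/-- **G00** (short-medium). `C X - X^b`: of degree `1` in `x` (`sw` of it is `X - C (X^b)`, monic of degree `1`, irreducible), `sw` is an automorphism. -/
def G00_stmt : Prop := ∀ b : ℕ, 1 ≤ b → Irreducible (g0 b) ∧ dX (g0 b) = 1 ∧ dY (g0 b) = b ∧ ∀ z : ℂ × ℂ, ev z (g0 b) = z.1 - z.2 ^ b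

/-- **GN1** (short-medium). uses: HIT. (1) `{x : ev (x, c) g = 0}` is finite (HIT), and `t ↦ t^b` has finite fibers. (2) HIT, `ζ ≠ 0`. (3) With `u = ζ t`: `t^b = u^b`, so `ev (u^b, u) g = 0`. `R = (sw g).eval (X^b) : ℂ[X]` has `R.eval u = ev (u^b, u) g`. If `R = 0` then `X - C (X^b) ∣ sw g`, so `g0 b ∣ g`, and as `g` is irreducible and `g0 b` is not a unit they are associated.
So `R ≠ 0` has finitely many roots. -/
def GN1_stmt : Prop := ∀ (g : AA) (b : ℕ), Irreducible g → 1 ≤ dX g → 1 ≤ dY g → 1 ≤ b → ¬ Associated g (g0 b) → ∀ ζ : ℂ, ζ ^ b = 1 →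
  (∀ c : ℂ, {t : ℂ | ev (t ^ b, c) g = 0}.Finite) ∧ (∀ c : ℂ, {t : ℂ | ev (c, ζ * t) g = 0}.Finite) ∧ {t : ℂ | ev (t ^ b, ζ * t) g = 0}.Finite

/-- **GN2** (short). uses: BZT. If not associated then `¬ g ∣ g'`, and BZT (`S2 = ∅`, `S1 = S`) gives `#S ≤ ip (dX g) (dY g) g = 2 dX g dY g`. -/
def GN2_stmt : Prop := ∀ g g' : AA, Irreducible g → Irreducible g' → dX g' = dX g → dY g' = dY g → ∀ S : Finset (ℂ × ℂ), (∀ z ∈ S, ev z g = 0 ∧ ev z g' = 0) →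
  2 * (dX g * dY g) < S.card → Associated g g'

/-- **GN3** (medium). uses: GN1, GN2. The points `(t m ^ b, ζ s * t m')` form a finite set `Q`; `S ⊆ Q`. For every `S ⊆ Q` and `(p, q)` with `2pq < #S` (finitely many; `p, q ≥ 1`): if there is such a curve of bidegree `(p,q)` through `S`, choose one, `g₁`; all others are associated to it (GN2), so they have the same zeros, and the bad `τ` for them are bad for `g₁`: finitely many (GN1 for the
finitely many `m`, `s`). Finite union. -/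
def GN3_stmt : Prop := ∀ (b : ℕ), 1 ≤ b → ∀ ζ : Fin b → ℂ, (∀ s, ζ s ^ b = 1) → ∀ (n : ℕ) (t : Fin n → ℂ),
  {τ : ℂ | ∃ g : AA, Irreducible g ∧ 1 ≤ dX g ∧ 1 ≤ dY g ∧ ¬ Associated g (g0 b) ∧
    (∃ S : Finset (ℂ × ℂ), (∀ z ∈ S, ev z g = 0 ∧ ∃ m m' s, z = (t m ^ b, ζ s * t m')) ∧ 2 * (dX g * dY g) < S.card) ∧
    ((∃ m' s, ev (τ ^ b, ζ s * t m') g = 0) ∨ (∃ m s, ev (t m ^ b, ζ s * τ) g = 0) ∨ ∃ s, ev (τ ^ b, ζ s * τ) g = 0)}.Finite

/-- generic numbers for the curve `x = y^b` -/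
def Gy (b : ℕ) (ζ : Fin b → ℂ) (n : ℕ) (t : Fin n → ℂ) : Prop := (∀ m, t m ≠ 0) ∧ (Function.Injective fun m => t m ^ b) ∧
  ∀ g : AA, Irreducible g → 1 ≤ dX g → 1 ≤ dY g → ¬ Associated g (g0 b) → ∀ S : Finset (Fin n × Fin n × Fin b),
    (∀ q ∈ S, ev (t q.1 ^ b, ζ q.2.2 * t q.2.1) g = 0) → S.card ≤ 2 * (dX g * dY g) + dY g + b * dX g

/-- **GN4** (medium; model `helper34/HFE/GEN.lean`). uses: GN3, HIT. Induction on `n`, `t' = Fin.snoc t τ` with `τ` outside the finite set of GN3, `τ ≠ 0`, `τ^b ≠ t m ^ b` (finitely many exceptions). Let `g`, `S` be given. The map `q ↦ (t' q.1 ^ b, ζ q.2.2 * t' q.2.1)` is injective (`ζ s t m = ζ s' t m'` gives `t m ^ b = t m' ^ b`, `m = m'`, `ζ s = ζ s'`). The `q ∈ S` with `q.1` new: at most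
`dY g` (HIT, column `τ^b`); with `q.2.1` new: for every `s` at most `dX g` (HIT, row `ζ s τ`). If `#S > 2 dX dY + dY + b dX` then more than `2 dX dY` elements of `S` contain only old indices; if all elements of `S` are old this contradicts the induction hypothesis; otherwise `τ` is in the set of GN3. -/
def GN4_stmt : Prop := GN3_stmt → HIT_stmt → ∀ (b : ℕ), 1 ≤ b → ∀ ζ : Fin b → ℂ, Function.Injective ζ → (∀ s, ζ s ^ b = 1) → ∀ n : ℕ, ∃ t : Fin n → ℂ, Gy b ζ n t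

open Pool.Agent.helper29.JZ in
/-- **RZT** (medium; model `helper39/HFE/RLZ.lean`). `ζ s = exp (2πi s/b)`: all `b`-th roots of unity (`Complex.isPrimitiveRoot_exp`, `IsPrimitiveRoot.pow_inj`). `n = h + h'`, `t` generic. `x k = t k ^ b` (`Fin.castAdd`). The rows `m` with a point `(k, m) ∈ W` (`k` unique, `row W m ≤ 1`): number the elements of `{m : (k, m) ∈ W}` (at most `b`, `col W k ≤ b`) injectively by `σ m : Fin b`
(`ROT_stmt` of JZ does a similar choice; or an embedding of a finset of card `≤ b` into `Fin b`), `y m = ζ (σ m) * t k`. Other rows: `y m = ζ 0 * t (h + m)`. `x`, `y` injective. For all `(k, m)`: `x k = y m ^ b ↔ (k, m) ∈ W` (`y m ^ b = t k' ^ b` or `t (h+m) ^ b`). `y m = ζ s * t m'`, so a point `(k, m)` of `M` on `g` gives an element `(k, (m', s))` of the set `S` in `Gy`, injectively. -/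
def RZT_stmt : Prop := (∀ (b : ℕ), 1 ≤ b → ∀ ζ : Fin b → ℂ, Function.Injective ζ → (∀ s, ζ s ^ b = 1) → ∀ n : ℕ, ∃ t : Fin n → ℂ, Gy b ζ n t) →
  ∀ (h h' b : ℕ) (M W : Finset (Fin h × Fin h')), 1 ≤ b → (∀ m, row W m ≤ 1) → (∀ k, col W k ≤ b) →
  ∃ (x : Fin h → ℂ) (y : Fin h' → ℂ), Function.Injective x ∧ Function.Injective y ∧ (∀ (k : Fin h) (m : Fin h'), x k = y m ^ b ↔ (k, m) ∈ W) ∧
    ∀ g : AA, Irreducible g → 1 ≤ dX g → 1 ≤ dY g → ¬ Associated g (g0 b) → nn (ZZ x y M) g ≤ 2 * (dX g * dY g) + dY g + b * dX g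

/-- **NUR** (short-medium; pure arithmetic). `ρ = √r > 5`, `β = b - 1 ≤ ρ/5`, `β' = a' b' - 1`, `s ≤ 2ρ/5` (`(w+1) s ≤ 2r`, `w ≥ 5ρ`). `a' = 1`: `2v ≤ 6β' + 2β + 8`; `b' = 1`: `2v ≤ 2ββ' + 6β' + 2β + 8`. So `r + 3 + wβ' ≤ 2v + s` gives `r ≤ 5 + 2β + s + (6 + 2β - w) β' ≤ 5 + 0.8ρ`, as `w ≥ 5ρ > 6 + 0.4ρ`; but `ρ² > 5 + 0.8ρ`. -/
def NUR_stmt : Prop := ∀ r v w s a' b' b : ℕ, 25 < r → 25 * r ≤ w * w → (w + 1) * s + 2 * v ≤ 2 * r → r + 3 + w * (a' * b' - 1) ≤ 2 * v + s → (a' = 1 ∨ b' = 1) →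
  1 ≤ a' → 1 ≤ b' → v ≤ 2 * (a' * b') + b' + b * a' → 25 * (b - 1) ^ 2 ≤ r → 1 ≤ b → False

/-- the sufficient part for `a = 1` -/
def Suf : Prop := ∀ (h h' : ℕ) (M W : Finset (Fin h × Fin h')) (b r : ℕ), 1 ≤ r → DatD M W 1 b r → ∃ Z : Finset (ℂ × ℂ), Z.card = r ∧
  ∀ i j : ℕ, Om r i j → df Z i j = Df M W 1 b i j

open Pool.Agent.helper29.JZ in
/-- **SUF** (short-medium). RZT (its conclusion) gives `x, y`; `Z = ZZ x y M`, `#Z = r` (TRM). `HBg x y M W 1 b`: a `Big` curve `g` which is not associated to `g0 b` has `nn Z g ≤ 2 dX dY + dY + b dX`, a contradiction by NUR (`25 (1 * b - 1)² ≤ r`); a curve associated to `g0 b` has its degrees and its zeros (G00). `Core`, and LOD (1) for `g0 b`. -/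
def SUF_stmt : Prop := (∀ (h h' b : ℕ) (M W : Finset (Fin h × Fin h')), 1 ≤ b → (∀ m, row W m ≤ 1) → (∀ k, col W k ≤ b) →
    ∃ (x : Fin h → ℂ) (y : Fin h' → ℂ), Function.Injective x ∧ Function.Injective y ∧ (∀ (k : Fin h) (m : Fin h'), x k = y m ^ b ↔ (k, m) ∈ W) ∧
      ∀ g : AA, Irreducible g → 1 ≤ dX g → 1 ≤ dY g → ¬ Associated g (g0 b) → nn (ZZ x y M) g ≤ 2 * (dX g * dY g) + dY g + b * dX g) →
  G00_stmt → NUR_stmt → TRM_stmt → LOD_stmt → Core → Suf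

open Pool.Agent.helper97.FP in
/-- THEOREM (D): the classification on `Om` -/
def MainD : Prop := ∀ r : ℕ, 1 ≤ r →
  (∀ Y : Finset Point, Y.card = r → ∃ (h h' : ℕ) (M W : Finset (Fin h × Fin h')) (a b : ℕ), DatD M W a b r ∧
    ∀ i j : ℕ, Om r i j → hilbert (doubleIdeal Y) i j + Df M W a b i j = 3 * r) ∧
  ∀ (h h' : ℕ) (M W : Finset (Fin h × Fin h')) (a b : ℕ), DatD M W a b r → ∃ Y : Finset Point, Y.card = r ∧
    ∀ i j : ℕ, Om r i j → hilbert (doubleIdeal Y) i j + Df M W a b i j = 3 * r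

open Pool.Agent.helper29.JZ in
/-- **MND** (short-medium; assembly). `AFF_stmt` (HFN), DEF: `hilbert + df = 3r`. First half: `Nec`. Second half: `a = 1`: `Suf`. `b = 1`: `Suf` for `tr M`, `tr W` (TRA: `DatD (tr M) (tr W) 1 a r`), `Z' `, `Z = Z'.image swap`, SWB (2), (4), (5). -/
def MND_stmt : Prop := AFF_stmt → DEF_stmt → SWB_stmt → TRA_stmt → Nec → Suf → MainD

end

end Pool.Agent.HFE
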