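import Pool.Agent.helper41.HFE.SpecD

/-!
# Project HFE (MP_3221a1_ag), block K, rows `hfe:K*`: the classification on the regions `Uk κ`

GOAL (`MainK`). `Uk κ r`: `i, j ≥ κ`, `i + j ≥ r + 1`, `κ i + j ≥ 2r - 1`, `i + κ j ≥ 2r - 1` (`κ = 2`: the region `TT`; `κ ≈ √r`: the whole half of the inner square up to strips of width `√r`). For `κ ≥ 2`, `r ≥ κ² + 2κ - 2` the functions of `H(r)` on `Uk κ r` are EXACTLY the
`3r - Df M W a b` with `min a b = 1`, `a b ≤ κ - 1`. (It contains block D with better constants, and no square roots: everything is integer arithmetic. The rows LAP, SMO, HIT, FCX, ROM, ADF, LOD, SWB, G00, GN1 - GN4, RZT of block D are used unchanged.)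

IDEA as in block D: a curve `f = g * (rows)` which is better than the rows alone has a `Bg` factor `g`; all `Bg` curves are associated.

RULES as in `Spec.lean`: file `Pool/Agent/<seat>/HFE/XXX.lean`, `import Pool.Agent.helper41.HFE.SpecK`, `open Polynomial Module Pool.Agent.HFN`, `namespace Pool.Agent.HFE`, theorem line exactly as in the lock note.
-/

set_option autoImplicit false

open Polynomial Module Pool.Agent.HFN

namespace Pool.Agent.HFE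

noncomputable section

/-- the region -/
def Uk (κ r i j : ℕ) : Prop := κ ≤ i ∧ κ ≤ j ∧ r + 1 ≤ i + j ∧ 2 * r ≤ κ * i + j + 1 ∧ 2 * r ≤ i + κ * j + 1

/-- the curves of bidegree `(1, b)` which can matter on `Uk κ` (with rows): `U` is a set of rows which do not meet `Z ∩ g` -/
def BgX (κ : ℕ) (Z : Finset (ℂ × ℂ)) (g : AA) : Prop := Irreducible g ∧ dX g = 1 ∧ 1 ≤ dY g ∧ ∃ (i s : ℕ) (U : Finset ℂ), κ ≤ i ∧ s + dY g + 1 ≤ κ ∧
  Z.card + 3 + i * (dY g - 1) ≤ 2 * nn Z g + s ∧ (∀ y ∈ U, ∀ z ∈ Z, z.2 = y → ev z g ≠ 0) ∧ (i - 1) * s ≤ 2 * ∑ y ∈ U, (mr Z y - 1)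

/-- the curves which can matter on `Uk κ` -/
def Bg (κ : ℕ) (Z : Finset (ℂ × ℂ)) (g : AA) : Prop := BgX κ Z g ∨ BgX κ (Z.image Prod.swap) (sw g)

section Mat

open Pool.Agent.helper29.JZ

variable {h h' : ℕ} (M W : Finset (Fin h × Fin h'))

/-- the data of the classification on `Uk κ` -/
def DatK (κ a b r : ℕ) : Prop := M.card = r ∧ (∀ k, 1 ≤ col M k) ∧ (∀ m, 1 ≤ row M m) ∧ 1 ≤ a ∧ 1 ≤ b ∧ (a = 1 ∨ b = 1) ∧ a * b + 1 ≤ κ ∧
  W ⊆ M ∧ (∀ m, row W m ≤ a) ∧ ∀ k, col W k ≤ b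

end Mat

/-- **RLK** (short-medium; adaptation of the landed row REL, `helper61/HFE/REL.lean`: only the end changes). uses: LAP, SMO, HIT, ROM, ODM. As in REL: `La Z (g f) ≤ 2v + i dY f + Aa Z i + s`, `s = ∑_(δ_y = 0) E_y`, `chi i j 1 (b + dY f) = (j+1) + i (b + dY f)`, so `2v + s ≥ j + 2 + i b ≥ r + 3 + i (b-1)`, and `(i+1) s + 2v ≤ 2r`.
`U` = the rows `y ∈ Z.image snd` with `δ_y = 0` and `E_y ≥ 1`: `2 (m_y - 1) ≥ (i - 1) E_y` (`E = 1`: `2m ≥ i + 1`; `E = 2`: `m ≥ i + 1`). `s + b + 1 ≤ κ`: `i s ≤ 2r - (2v + s) ≤ 2r - (j + 2 + i b) ≤ κ i - 1 - i b < (κ - b) i` (as `2r ≤ κ i + j + 1`), so `s < κ - b`. -/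
def RLK_stmt : Prop := ∀ (κ : ℕ) (Z : Finset (ℂ × ℂ)) (g f : AA) (i j : ℕ), 1 ≤ κ → Irreducible g → dX g = 1 → 1 ≤ dY g → f ≠ 0 → dX f = 0 → Uk κ Z.card i j → dY g + dY f ≤ j + 1 →
  chi i j 1 (dY g + dY f) + Aa Z i < La Z (g * f) → BgX κ Z g

/-- **UXX** (medium). uses: BZT, HIT. `r = #Z`, `β = dY g - 1`, `β' = dY g' - 1`. Suppose they are not associated. BZT (`C = g`, `f = g' ∈ V 1 (dY g')`, `S2 = ∅`): `#(Z ∩ g ∩ g') ≤ dY g + dY g' = β + β' + 2`. The rows of `U` have no point on `g` and at most one on `g'` (HIT): `#(Z ∩ (g ∪ g')) ≤ r - ∑_U (m_y - 1)`. So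
`2r + 6 + iβ + i'β' ≤ 2(v + v') + s + s' ≤ 2r - (i-1) s + 2(β + β' + 2) + s + s'`, i.e. `2 + (i-2)β + (i'-2)β' + (i-2) s ≤ s'`, and in the same way `2 + (i-2)β + (i'-2)β' + (i'-2) s' ≤ s`. If `κ ≥ 3` then `2 + s ≤ s'` and `2 + s' ≤ s`. If `κ = 2` then `s = s' = 0` (`s + dY g + 1 ≤ κ`). -/
def UXX_stmt : Prop := ∀ (κ : ℕ) (Z : Finset (ℂ × ℂ)) (g g' : AA), 2 ≤ κ → BgX κ Z g → BgX κ Z g' → Associated g g'

/-- **UXY** (medium). uses: BZT, HIT. `g` of bidegree `(1, b)` with rows `U` at `i`; `g'` of bidegree `(b', 1)` (`dY (sw g') = dX g' = b'`) with columns `U'` at `j'` (the `i` of `BgX κ (Z.image swap) (sw g')`; `nn`, `mr` of the exchanged set are `nn Z g'`, `nc Z`). `β = b - 1`, `β' = b' - 1`, `τ = κ - 2`, `s + β ≤ τ`, `s' + β' ≤ τ`, `τ ≤ i - 2`, `τ ≤ j' - 2`.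
Suppose not associated; BZT: `#(Z ∩ g ∩ g') ≤ b b' + 1`. (a) `β, β' ≥ 1`: `2r + 6 + iβ + j'β' ≤ 2(v+v') + s + s' ≤ 2r + 2 + 2(β+1)(β'+1) + s + s'`, so `2 + (i-2)β + (j'-2)β' ≤ 2ββ' + s + s' ≤ 2ββ' + 2τ - β - β'`, `2 + (τ+1)(β+β') ≤ 2ββ' + 2τ`, but `(τ-β)(β'-1) + (τ-β')(β-1) ≥ 0` says `(τ+1)(β+β') ≥ 2τ + 2ββ'`.
(b) `β' = 0`: `g'` meets every row at most once (HIT, `dX g' = 1`): as in UXX `2 + (i-2)β + (i-2) s ≤ s' ≤ κ - 2 ≤ i - 2`, so `β = s = 0`, `g` has bidegree `(1,1)` and meets every column at most once: `2 + (j'-2) s' ≤ s = 0`, a contradiction. (c) `β = 0`, `β' ≥ 1`: in the same way `2 + (j'-2)β' + (j'-2) s' ≤ s ≤ κ - 2 ≤ j' - 2`, so `β' = 0` or `j' = 2`, `κ = 2`, `β' = 0`: a contradiction. -/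
def UXY_stmt : Prop := ∀ (κ : ℕ) (Z : Finset (ℂ × ℂ)) (g g' : AA), 2 ≤ κ → BgX κ Z g → BgX κ (Z.image Prod.swap) (sw g') → Associated g g'

/-- **UNK** (short; assembly). uses: UXX, UXY. Four cases; for two curves of the second kind UXX for `Z.image swap`, `sw g`, `sw g'` (`sw` preserves `Associated`), mixed: UXY or its mirror (`Associated` is symmetric). -/
def UNK_stmt : Prop := UXX_stmt → UXY_stmt → ∀ (κ : ℕ) (Z : Finset (ℂ × ℂ)) (g g' : AA), 2 ≤ κ → Bg κ Z g → Bg κ Z g' → Associated g g'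

open Pool.Agent.helper29.JZ in
/-- all `Bg` curves have the bidegree `(a, b)` and the points `W` -/
def HBk (κ : ℕ) {h h' : ℕ} (x : Fin h → ℂ) (y : Fin h' → ℂ) (M W : Finset (Fin h × Fin h')) (a b : ℕ) : Prop :=
  ∀ g : AA, Bg κ (ZZ x y M) g → dX g = a ∧ dY g = b ∧ ∀ p ∈ M, (p ∈ W ↔ ev (x p.1, y p.2) g = 0)

open Pool.Agent.helper29.JZ in
/-- the upper bound for curves with `dX f ≤ 1` -/
def UpXK : Prop := ∀ (κ : ℕ) (h h' : ℕ) (x : Fin h → ℂ) (y : Fin h' → ℂ) (M W : Finset (Fin h × Fin h')) (a b : ℕ), 2 ≤ κ → Function.Injective x → Function.Injective y →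
  (∀ k, 1 ≤ col M k) → (∀ m, 1 ≤ row M m) → 1 ≤ M.card → HBk κ x y M W a b → ∀ i j : ℕ, Uk κ M.card i j → ∀ f : AA, f ≠ 0 → dX f ≤ 1 → dY f ≤ j + 1 →
  La (ZZ x y M) f ≤ chi i j (dX f) (dY f) + Df M W a b i j

open Pool.Agent.helper29.JZ in
/-- the upper bound for curves with `dY f ≤ 1` -/
def UpYK : Prop := ∀ (κ : ℕ) (h h' : ℕ) (x : Fin h → ℂ) (y : Fin h' → ℂ) (M W : Finset (Fin h × Fin h')) (a b : ℕ), 2 ≤ κ → Function.Injective x → Function.Injective y →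
  (∀ k, 1 ≤ col M k) → (∀ m, 1 ≤ row M m) → 1 ≤ M.card → HBk κ x y M W a b → ∀ i j : ℕ, Uk κ M.card i j → ∀ f : AA, f ≠ 0 → dY f ≤ 1 → dX f ≤ i + 1 →
  La (ZZ x y M) f ≤ chi i j (dX f) (dY f) + Df M W a b i j

/-- **UXK** (short; adaptation of the landed row UPX, `helper21/HFE/UPX.lean`: replace `Om` by `Uk κ`, `REL` by `RLK` (which gives `BgX`, so `Bg`), `HBg` by `HBk κ`). -/
def UXK_stmt : Prop := LAP_stmt → SMO_stmt → ODM_stmt → FCX_stmt → ROM_stmt → RLK_stmt → ADF_stmt → TRM_stmt → ROU_stmt → UpXK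

open Pool.Agent.helper29.JZ in
/-- **UYK** (short; adaptation of the landed row UPY, `helper83/HFE/UPY.lean`). `Bg κ (Z.image swap) g ↔ Bg κ Z (sw g)` by definition (`(Z.image swap).image swap = Z`, `sw_sw`); `Uk κ r i j → Uk κ r j i`. -/
def UYK_stmt : Prop := SWB_stmt → SWZ_stmt → TRA_stmt → UpXK → UpYK

open Pool.Agent.helper29.JZ in
/-- the upper bound for the defect -/
def CoreK : Prop := ∀ (κ : ℕ) (h h' : ℕ) (x : Fin h → ℂ) (y : Fin h' → ℂ) (M W : Finset (Fin h × Fin h')) (a b : ℕ), 2 ≤ κ → Function.Injective x → Function.Injective y →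
  (∀ k, 1 ≤ col M k) → (∀ m, 1 ≤ row M m) → 1 ≤ M.card → HBk κ x y M W a b → ∀ i j : ℕ, Uk κ M.card i j → df (ZZ x y M) i j ≤ Df M W a b i j

/-- **COK** (short; adaptation of the landed row COR, `helper23/HFE/COR.lean`). `i, j ≥ κ ≥ 2`. -/
def COK_stmt : Prop := AffAB → TRM_stmt → UpXK → UpYK → CoreK

/-- the necessary part -/
def NecK : Prop := ∀ (κ : ℕ) (Z : Finset (ℂ × ℂ)), 2 ≤ κ → 1 ≤ Z.card → ∃ (h h' : ℕ) (M W : Finset (Fin h × Fin h')) (a b : ℕ), DatK M W κ a b Z.card ∧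
  ∀ i j : ℕ, Uk κ Z.card i j → df Z i j = Df M W a b i j

open Pool.Agent.helper29.JZ in
/-- **NEK** (short-medium; adaptation of the row NEC). EXM: `x, y, M`, `ZZ x y M = Z`. If some `g` is `Bg κ`: `a = dX g`, `b = dY g`, `W = {p ∈ M : ev (x p.1, y p.2) g = 0}`; `a b + 1 ≤ κ` (`dX g = 1`, `s + dY g + 1 ≤ κ`, or the mirror); `row W m ≤ a`, `col W k ≤ b`: HIT and injectivity. `HBk`: every other `Bg` curve is associated to `g` (the hypothesis on `Associated` is the conclusion of UNK):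
same degrees, same zeros. `CoreK` and LOD (1) (`Irreducible g` from `Irreducible (sw g)` in the second case). If there is none: `a = b = 1`, `W = ∅`, LOD (2). -/
def NEK_stmt : Prop := EXM_stmt → (∀ (κ : ℕ) (Z : Finset (ℂ × ℂ)) (g g' : AA), 2 ≤ κ → Bg κ Z g → Bg κ Z g' → Associated g g') → HIT_stmt → LOD_stmt → CoreK → NecK

/-- **NUK** (short-medium; pure arithmetic). `β' = b' - 1`. First case: `r + 3 + iβ' ≤ 2v + s ≤ 6β' + 6 + 2(κ-1) + (κ - 2 - β')`, so `r ≤ 3κ - 1 + (5 - i) β'`, `i ≥ κ`, `β' ≤ κ - 2`: `< κ² + 2κ - 2` (`κ = 2, 3, 4` separately: `5 < 6`, `10 < 13`, `13 < 22`; `κ ≥ 5`: `3κ - 1`). Second case, `β = b - 1 ≤ κ - 2`: `2v + s ≤ 2ββ' + 5β' + 2β + κ + 6`,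
so `r ≤ β' (2β + 5 - κ) + 2β + κ + 3 ≤ (κ-2)(κ+1) + 3κ - 1 = κ² + 2κ - 3`. -/
def NUK_stmt : Prop := ∀ κ r v i s b b' : ℕ, 2 ≤ κ → κ ≤ i → κ * κ + 2 * κ ≤ r + 2 → 1 ≤ b → 1 ≤ b' → b + 1 ≤ κ → s + b' + 1 ≤ κ → r + 3 + i * (b' - 1) ≤ 2 * v + s →
  (v ≤ 3 * b' + b ∨ v ≤ 2 * b' + 1 + b * b') → False

/-- the sufficient part for `a = 1` -/
def SufK : Prop := ∀ (κ : ℕ) (h h' : ℕ) (M W : Finset (Fin h × Fin h')) (b r : ℕ), 2 ≤ κ → κ * κ + 2 * κ ≤ r + 2 → DatK M W κ 1 b r → ∃ Z : Finset (ℂ × ℂ), Z.card = r ∧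
  ∀ i j : ℕ, Uk κ r i j → df Z i j = Df M W 1 b i j

open Pool.Agent.helper29.JZ in
/-- **SUK** (short-medium; adaptation of the row SUF). RZT (its conclusion) gives `x, y`; `Z = ZZ x y M`, `#Z = r` (TRM). `HBk κ x y M W 1 b`: let `g` be `Bg κ`. If it is not associated to `g0 b` then `nn Z g ≤ 2 dX dY + dY + b dX`: `BgX κ Z g`: `dX g = 1`, `nn Z g ≤ 3 b' + b`; `BgX κ (Z.image swap) (sw g)`: `dY g = 1`, `b' = dX g`, `nn Z g ≤ 2b' + 1 + b b'`; NUK.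
Otherwise it has the degrees and the zeros of `g0 b` (G00). `CoreK`, and LOD (1) for `g0 b`. -/
def SUK_stmt : Prop := (∀ (h h' b : ℕ) (M W : Finset (Fin h × Fin h')), 1 ≤ b → (∀ m, row W m ≤ 1) → (∀ k, col W k ≤ b) →
    ∃ (x : Fin h → ℂ) (y : Fin h' → ℂ), Function.Injective x ∧ Function.Injective y ∧ (∀ (k : Fin h) (m : Fin h'), x k = y m ^ b ↔ (k, m) ∈ W) ∧
      ∀ g : AA, Irreducible g → 1 ≤ dX g → 1 ≤ dY g → ¬ Associated g (g0 b) → nn (ZZ x y M) g ≤ 2 * (dX g * dY g) + dY g + b * dX g) →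
  G00_stmt → NUK_stmt → TRM_stmt → LOD_stmt → CoreK → SufK

open Pool.Agent.helper97.FP in
/-- THEOREM (K): the classification on `Uk κ` -/
def MainK : Prop := ∀ κ r : ℕ, 2 ≤ κ → κ * κ + 2 * κ ≤ r + 2 →
  (∀ Y : Finset Point, Y.card = r → ∃ (h h' : ℕ) (M W : Finset (Fin h × Fin h')) (a b : ℕ), DatK M W κ a b r ∧
    ∀ i j : ℕ, Uk κ r i j → hilbert (doubleIdeal Y) i j + Df M W a b i j = 3 * r) ∧
  ∀ (h h' : ℕ) (M W : Finset (Fin h × Fin h')) (a b : ℕ), DatK M W κ a b r → ∃ Y : Finset Point, Y.card = r ∧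
    ∀ i j : ℕ, Uk κ r i j → hilbert (doubleIdeal Y) i j + Df M W a b i j = 3 * r

open Pool.Agent.helper29.JZ in
/-- **MNK** (short-medium; adaptation of the row MND). `AFF_stmt` (HFN), DEF: `hilbert + df = 3r`. First half: `NecK` (`r ≥ 6`). Second half: `a = 1`: `SufK`. `b = 1`: `SufK` for `tr M`, `tr W` (TRA: `DatK (tr M) (tr W) κ 1 a r`), `Z'`, `Z = Z'.image swap`, SWB (2), (4), `Uk κ r i j → Uk κ r j i`. -/
def MNK_stmt : Prop := AFF_stmt → DEF_stmt → SWB_stmt → TRA_stmt → NecK → SufK → MainK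

end

end Pool.Agent.HFE
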